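import Pool.Agent.MP_655169_nt.H83.If

/-! Full column rank of the entry matrix at every point close to `w`. -/

open Polynomial NumberField Finset

namespace LogPow

namespace RankL

lemma exp14 : (4 : ℝ) ≤ Real.exp 1.4 := by
  have h1 := Real.exp_one_gt_d9
  have h2 : (1 : ℝ) + 0.4 + 0.4 ^ 2 / 2 ≤ Real.exp 0.4 := by
    have := Real.quadratic_le_exp_of_nonneg (x := (0.4 : ℝ)) (by norm_num)
    linarith
  have h3 : Real.exp 1.4 = Real.exp 1 * Real.exp 0.4 := by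
    rw [← Real.exp_add]; norm_num
  rw [h3]
  have h4 : (0 : ℝ) < Real.exp 0.4 := Real.exp_pos _
  nlinarith

/-- The smallness condition of the zero lemma. -/
lemma cond (n n' : ℕ) (t : ℝ) (h1 : 1001 * (n : ℝ) ≤ 1000 * n')
    (h3 : 16 ≤ (n : ℝ)) (ht : 2 * t ≤ n) :
    (4 / Real.exp 4000) ^ n' * ((n : ℝ) * Real.exp 4000 ^ n * Real.exp t) ≤ 1 / 2 := by
  have hA : (4 / Real.exp 4000 : ℝ) ≤ Real.exp (1.4 - 4000) := by
    rw [Real.exp_sub]
    exact div_le_div_of_nonneg_right exp14 (Real.exp_pos _).le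
  have hA' : (4 / Real.exp 4000 : ℝ) ^ n' ≤ Real.exp (n' * (1.4 - 4000)) := by
    rw [Real.exp_nat_mul]
    exact pow_le_pow_left₀ (by positivity) hA _
  have hB : (2 * n : ℝ) ≤ Real.exp (n / 2) := by
    have := Real.quadratic_le_exp_of_nonneg (x := (n : ℝ) / 2) (by positivity)
    nlinarith
  have hC : Real.exp 4000 ^ n = Real.exp (n * 4000) := by rw [Real.exp_nat_mul]
  have hD : Real.exp (n' * (1.4 - 4000)) * (Real.exp (n / 2) * Real.exp (n * 4000) * Real.exp t)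
      ≤ 1 := by
    rw [← Real.exp_add, ← Real.exp_add, ← Real.exp_add, Real.exp_le_one_iff]
    linarith
  rw [hC]
  have hE : (4 / Real.exp 4000) ^ n' * ((2 * n : ℝ) * Real.exp (n * 4000) * Real.exp t) ≤
      Real.exp (n' * (1.4 - 4000)) * (Real.exp (n / 2) * Real.exp (n * 4000) * Real.exp t) := by
    gcongr
  linarith

lemma pow_le_exp {a x : ℝ} (n : ℕ) (ha : 0 ≤ a) (h : a ≤ Real.exp x) :
    a ^ n ≤ Real.exp (n * x) := by
  rw [Real.exp_nat_mul]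
  exact pow_le_pow_left₀ ha h _

/-- The final numerical inequality. -/
lemma fin (K l δ : ℝ) (M n n' : ℕ) (hK : 2 ≤ K) (hM : 1 ≤ M) (hl : Real.exp l = 2 * K ^ 2 * M)
    (hMn : (M : ℝ) ^ 2 ≤ n) (hnn : (n : ℝ) ≤ n') (hn' : (n' : ℝ) ≤ 9 * (M : ℝ) ^ 4)
    (hδ0 : 0 ≤ δ) (hδ : δ ≤ Real.exp (-((2100 + K ^ 3) * n' * l))) :
    K ^ (2 * M ^ 2) * ((2 / (1 / K)) ^ n * (n : ℝ) ^ n * Real.exp (K ^ 2 * M * (K * M)) *
      (4 * ((n' : ℝ) * ((((M ^ 2 : ℕ) : ℝ) + 1) * ((Real.exp 4000 + 1) * (K * M))) ^ n' *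
        (K ^ (3 * M ^ 2) * (n * (2 * Real.exp (7 * M ^ 2 * l) * δ)))))) < 1 := by
  have hM1 : (1 : ℝ) ≤ M := by exact_mod_cast hM
  have hK2 : (4 : ℝ) ≤ K ^ 2 := by nlinarith
  have hKM : (8 : ℝ) * M ≤ Real.exp l := by rw [hl]; nlinarith
  have h8 : (8 : ℝ) ≤ Real.exp l := by linarith
  have hl2 : 2 ≤ l := by
    by_contra hcon
    push Not at hcon
    have h1 : Real.exp l < Real.exp 2 := Real.exp_lt_exp.mpr hcon
    have h2 : Real.exp 2 = Real.exp 1 * Real.exp 1 := by rw [← Real.exp_add]; norm_num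
    have h3 := Real.exp_one_lt_d9
    have h4 := Real.exp_pos 1
    nlinarith
  have hM2 : (1 : ℝ) ≤ (M : ℝ) ^ 2 := one_le_pow₀ hM1
  have hn1 : (1 : ℝ) ≤ n := hM2.trans hMn
  have hn'1 : (1 : ℝ) ≤ n' := hn1.trans hnn
  set X : ℝ := n' * l with hX
  have hlX : l ≤ X := by rw [hX]; nlinarith
  have hnX : (n : ℝ) * l ≤ X := by rw [hX]; nlinarith
  have hMX : (M : ℝ) ^ 2 * l ≤ X := by rw [hX]; nlinarith
  have hn'X : (n' : ℝ) ≤ X := by rw [hX]; nlinarith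
  have hKl : K ≤ Real.exp l := by rw [hl]; nlinarith
  have h2Kl : 2 * K ≤ Real.exp l := by rw [hl]; nlinarith
  have hKMl : K * M ≤ Real.exp l := by rw [hl]; nlinarith
  have hE4 : Real.exp (4 * l) = Real.exp l ^ 4 := by
    rw [← Real.exp_nat_mul]; norm_num
  have hn'4 : (n' : ℝ) ≤ Real.exp (4 * l) := by
    rw [hE4]
    have : ((8 : ℝ) * M) ^ 4 ≤ Real.exp l ^ 4 := pow_le_pow_left₀ (by positivity) hKM 4
    have h0 : (0 : ℝ) ≤ (M : ℝ) ^ 4 := by positivity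
    nlinarith
  have hn4 : (n : ℝ) ≤ Real.exp (4 * l) := hnn.trans hn'4
  have hK0 : (0 : ℝ) < K := by linarith
  have f1 : K ^ (2 * M ^ 2) ≤ Real.exp (2 * X) := by
    refine (pow_le_exp _ hK0.le hKl).trans (Real.exp_le_exp.mpr ?_)
    push_cast; linarith
  have f2 : (2 / (1 / K)) ^ n ≤ Real.exp X := by
    have : 2 / (1 / K) = 2 * K := by field_simp
    rw [this]
    exact (pow_le_exp _ (by positivity) h2Kl).trans (Real.exp_le_exp.mpr hnX)
  have f3 : (n : ℝ) ^ n ≤ Real.exp (4 * X) := by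
    refine (pow_le_exp _ (by positivity) hn4).trans (Real.exp_le_exp.mpr ?_)
    linarith
  have f4 : Real.exp (K ^ 2 * M * (K * M)) ≤ Real.exp (K ^ 3 * X) := by
    refine Real.exp_le_exp.mpr ?_
    have h1 : K ^ 2 * M * (K * M) = K ^ 3 * (M : ℝ) ^ 2 := by ring
    rw [h1]
    exact mul_le_mul_of_nonneg_left (by linarith) (by positivity)
  have f5 : (4 : ℝ) ≤ Real.exp X := by
    have := Real.exp_le_exp.mpr hlX
    linarith
  have f6 : (n' : ℝ) ≤ Real.exp (4 * X) := hn'4.trans (Real.exp_le_exp.mpr (by linarith))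
  have f7 : ((((M ^ 2 : ℕ) : ℝ) + 1) * ((Real.exp 4000 + 1) * (K * M))) ^ n' ≤
      Real.exp (2004 * X) := by
    have g1 : (((M ^ 2 : ℕ) : ℝ) + 1) ≤ Real.exp (2 * l) := by
      have e2 : Real.exp (2 * l) = Real.exp l ^ 2 := by rw [← Real.exp_nat_mul]; norm_num
      rw [e2]
      have : ((8 : ℝ) * M) ^ 2 ≤ Real.exp l ^ 2 := pow_le_pow_left₀ (by positivity) hKM 2
      push_cast
      nlinarith
    have g2 : Real.exp 4000 + 1 ≤ Real.exp (2001 * l) := by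
      have e1 : Real.exp 4001 = Real.exp 4000 * Real.exp 1 := by rw [← Real.exp_add]; norm_num
      have e2 : (1 : ℝ) ≤ Real.exp 4000 := Real.one_le_exp (by norm_num)
      have e3 := Real.exp_one_gt_d9
      have e4 : Real.exp 4001 ≤ Real.exp (2001 * l) := Real.exp_le_exp.mpr (by linarith)
      generalize Real.exp 4000 = G at e1 e2 ⊢
      nlinarith
    have g3 : (((M ^ 2 : ℕ) : ℝ) + 1) * ((Real.exp 4000 + 1) * (K * M)) ≤
        Real.exp (2004 * l) := by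
      have e : Real.exp (2004 * l) = Real.exp (2 * l) * (Real.exp (2001 * l) * Real.exp l) := by
        rw [← Real.exp_add, ← Real.exp_add]; congr 1; ring
      rw [e]
      gcongr
    refine (pow_le_exp _ (by positivity) g3).trans (Real.exp_le_exp.mpr ?_)
    rw [hX]; linarith
  have f8 : K ^ (3 * M ^ 2) ≤ Real.exp (3 * X) := by
    refine (pow_le_exp _ hK0.le hKl).trans (Real.exp_le_exp.mpr ?_)
    push_cast; linarith
  have f9 : (n : ℝ) ≤ Real.exp (4 * X) := hnn.trans f6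
  have f10 : (2 : ℝ) ≤ Real.exp X := by linarith
  have f11 : Real.exp (7 * M ^ 2 * l) ≤ Real.exp (7 * X) := Real.exp_le_exp.mpr (by linarith)
  have f12 : δ ≤ Real.exp (-((2100 + K ^ 3) * X)) := by
    rw [hX, ← mul_assoc]; exact hδ
  calc _ ≤ Real.exp (2 * X) * (Real.exp X * Real.exp (4 * X) * Real.exp (K ^ 3 * X) *
        (Real.exp X * (Real.exp (4 * X) * Real.exp (2004 * X) *
          (Real.exp (3 * X) * (Real.exp (4 * X) * (Real.exp X * Real.exp (7 * X) *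
            Real.exp (-((2100 + K ^ 3) * X)))))))) := by gcongr
    _ = Real.exp (-(69 * X)) := by
        simp only [← Real.exp_add]; congr 1; ring
    _ < 1 := by
        rw [Real.exp_lt_one_iff]; linarith

variable (D : Data)

lemma contDiff_fn (c : (ℤ × ℤ) × ℕ) (n : ℕ) : ContDiff ℂ n (D.fn c) := by
  unfold Data.fn
  fun_prop

lemma one_le_mul_pow {K a : ℝ} (hK : 1 ≤ K) (ha : 0 ≤ a) (h : 1 ≤ K * a) {t T : ℕ} (ht : t ≤ T) :
    1 ≤ K ^ T * a ^ t := by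
  have h1 : 1 ≤ (K * a) ^ t := one_le_pow₀ h
  rw [mul_pow] at h1
  exact h1.trans (mul_le_mul_of_nonneg_right (pow_le_pow_right₀ hK ht) (by positivity))

lemma colF_ge (hl : LatStmt) (M : ℕ) (c : (ℤ × ℤ) × ℕ) (hc : c.1 ∈ box M) :
    1 ≤ D.K₀ ^ (2 * M ^ 2) * ‖D.colF c‖ := by
  unfold Data.colF
  rw [norm_pow]
  exact one_le_mul_pow (by linarith [D.hK]) (norm_nonneg _) D.hKw' (hl.tri_box M _ hc)

lemma rowF_ge (hl : LatStmt) (M : ℕ) (r : (ℤ × ℤ) × ℕ) (hr : r.1 ∈ box M) (hσ : r.2 ≤ M ^ 2) :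
    1 ≤ D.K₀ ^ (3 * M ^ 2) * ‖D.rowF M r‖ := by
  unfold Data.rowF
  have hK : (1 : ℝ) ≤ D.K₀ := by linarith [D.hK]
  have h1 : 1 ≤ D.K₀ ^ (2 * M ^ 2) * ‖D.w‖ ^ (tri r.1.1 + tri r.1.2) :=
    one_le_mul_pow hK (norm_nonneg _) D.hKw' (hl.tri_box M _ hr)
  have h2 : 1 ≤ D.K₀ ^ (M ^ 2) * ‖D.A.eval D.w‖ ^ r.2 :=
    one_le_mul_pow hK (norm_nonneg _) D.hKA' hσ
  have h3 : 1 ≤ ‖(D.n₀ : ℂ)‖ ^ ((1 + D.a.natAbs + D.b.natAbs) * M ^ 2) := by
    refine one_le_pow₀ ?_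
    rw [Complex.norm_natCast]
    exact_mod_cast D.hn₀
  rw [norm_mul, norm_mul, norm_pow, norm_pow, norm_pow,
    show 3 * M ^ 2 = 2 * M ^ 2 + M ^ 2 by ring, pow_add]
  calc (1 : ℝ) ≤ ‖(D.n₀ : ℂ)‖ ^ ((1 + D.a.natAbs + D.b.natAbs) * M ^ 2) *
        (D.K₀ ^ (2 * M ^ 2) * ‖D.w‖ ^ (tri r.1.1 + tri r.1.2)) *
        (D.K₀ ^ (M ^ 2) * ‖D.A.eval D.w‖ ^ r.2) :=
        one_le_mul_of_one_le_of_one_le (one_le_mul_of_one_le_of_one_le h3 h1) h2
    _ = _ := by ring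

/-- The polynomial coefficient attached to the lattice point `x`. -/
noncomputable def pp (M q : ℕ) (ce : (ℤ × ℤ) × ℕ → ℂ) (x : ℤ × ℤ) : ℂ[X] :=
  ∑ τ ∈ range (mult M q x), monomial τ (D.colF (x, τ) * ce (x, τ))

lemma pp_coeff (M q : ℕ) (ce : (ℤ × ℤ) × ℕ → ℂ) (x : ℤ × ℤ) (τ : ℕ) :
    (pp D M q ce x).coeff τ = if τ < mult M q x then D.colF (x, τ) * ce (x, τ) else 0 := by
  unfold pp
  rw [finsetSum_coeff]
  simp only [coeff_monomial]
  rw [Finset.sum_ite_eq' (range (mult M q x)) τ (fun σ => D.colF (x, σ) * ce (x, σ))]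
  simp only [mem_range]

lemma pp_degree (M q : ℕ) (ce : (ℤ × ℤ) × ℕ → ℂ) (x : ℤ × ℤ) :
    (pp D M q ce x).degree < mult M q x := by
  rw [degree_lt_iff_coeff_zero]
  intro m hm
  rw [pp_coeff, if_neg (by omega)]

lemma ep_eq (hl : LatStmt) (M q : ℕ) (ce : (ℤ × ℤ) × ℕ → ℂ) :
    ep (box M) (fun x => D.lam x * D.L) (pp D M q ce) =
      fun z => ∑ j ∈ idx M q, (D.colF j * ce j) * D.fn j z := by
  funext z
  rw [hl.sum_idx]
  unfold ep pp Data.fn
  refine Finset.sum_congr rfl fun x _ => ?_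
  rw [eval_finsetSum, Finset.sum_mul]
  refine Finset.sum_congr rfl fun τ _ => ?_
  rw [eval_monomial]
  ring

lemma row_eq (hl : LatStmt) (he : EvalStmt) (M q : ℕ) (ce : (ℤ × ℤ) × ℕ → ℂ)
    (r : (ℤ × ℤ) × ℕ) :
    D.rowF M r * iteratedDeriv r.2 (ep (box M) (fun x => D.lam x * D.L) (pp D M q ce)) (D.mu r.1)
      = ∑ j ∈ idx M q, (D.entry M r j).eval D.w * ce j := by
  rw [ep_eq D hl, iteratedDeriv_fun_sum (fun j _ =>
    (contDiff_const.mul (contDiff_fn D j r.2)).contDiffAt), Finset.mul_sum]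
  refine Finset.sum_congr rfl fun j _ => ?_
  rw [iteratedDeriv_const_mul_field, he]
  ring

end RankL

open RankL in
theorem rankStmt (hl : LatStmt) (he : EvalStmt) (hL : EntLipStmt) (hq : QZStmt) : RankStmt := by
  intro D M q q' γ hM hqM hq'M h1 h2 h3 hγ c hc
  by_contra hne
  obtain ⟨j1, hj1⟩ := Function.ne_iff.mp hne
  obtain ⟨j0, -, hj0⟩ := Finset.exists_max_image (Finset.univ : Finset (idx M q))
    (fun j => ‖c j‖) ⟨j1, Finset.mem_univ _⟩
  set mx := ‖c j0‖ with hmx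
  have hmx0 : 0 < mx := lt_of_lt_of_le (norm_pos_iff.mpr hj1) (hj0 j1 (Finset.mem_univ _))
  classical
  set ce : (ℤ × ℤ) × ℕ → ℂ := fun p => if h : p ∈ idx M q then c ⟨p, h⟩ else 0 with hce
  have hcej : ∀ j : idx M q, ce j.1 = c j := fun j => by simp [hce, j.2]
  have hce_le : ∀ j ∈ idx M q, ‖ce j‖ ≤ mx := fun j hj => by
    have := hj0 ⟨j, hj⟩ (Finset.mem_univ _)
    rwa [← hcej] at this
  have hK := D.hK
  have hK0 : (0 : ℝ) < D.K₀ := by linarith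
  have hM1 : (1 : ℝ) ≤ M := by exact_mod_cast hM
  have hM2 : (1 : ℝ) ≤ (M : ℝ) ^ 2 := one_le_pow₀ hM1
  have hK3 : (8 : ℝ) ≤ D.K₀ ^ 3 := by
    have := pow_le_pow_left₀ (by norm_num) hK 3
    linarith
  have hG : (3 : ℝ) ≤ Real.exp 4000 := by
    have := Real.add_one_le_exp (4000 : ℝ)
    linarith
  have h16 : 16 * (M : ℝ) ^ 2 ≤ NN M q := by
    refine le_trans ?_ h3
    have : (8 : ℝ) * 1 ≤ D.K₀ ^ 3 * (1 + Real.exp 4000) :=
      mul_le_mul hK3 (by linarith) (by norm_num) (by linarith)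
    nlinarith
  have hN0 : (0 : ℝ) ≤ NN M q := Nat.cast_nonneg _
  have hexp : Real.exp (D.l0 M) = 2 * D.K₀ ^ 2 * M := Real.exp_log (by positivity)
  have hl0 : 0 < D.l0 M := Real.log_pos (by nlinarith)
  have hδ1 : ‖γ - D.w‖ < 1 := by
    refine hγ.trans_lt ?_
    rw [Real.exp_lt_one_iff, neg_lt_zero]
    have : (0 : ℝ) < NN M q' := by linarith
    positivity
  have hsq : ∀ (a : ℕ), a ≤ M → ∀ x, mult M a x ≤ M ^ 2 := fun a ha x =>
    (hl.mult_le M a x).trans (Nat.pow_le_pow_left ha 2)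
  set b : ℝ := 2 * Real.exp (7 * M ^ 2 * D.l0 M) * ‖γ - D.w‖ with hb
  have hb0 : 0 ≤ b := by positivity
  have hsmall : ∀ y ∈ box M, ∀ σ < mult M q' y,
      ‖iteratedDeriv σ (ep (box M) (fun x => D.lam x * D.L) (pp D M q ce)) (D.mu y)‖ ≤
        D.K₀ ^ (3 * M ^ 2) * (NN M q * b) * mx := by
    intro y hy σ hσ
    have hi : (y, σ) ∈ idx M q' := (hl.mem_idx M q' _).mpr ⟨hy, hσ⟩
    have hσM : σ ≤ M ^ 2 := hσ.le.trans (hsq q' hq'M y)
    have hz : ∑ j ∈ idx M q, (D.entry M (y, σ) j).eval γ * ce j = 0 := by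
      have := congrFun hc ⟨(y, σ), hi⟩
      simp only [Matrix.mulVec, dotProduct, Matrix.of_apply, Pi.zero_apply] at this
      rw [← Finset.sum_coe_sort]
      simp only [hcej]
      exact this
    have hrow := row_eq D hl he M q ce (y, σ)
    have hR := rowF_ge D hl M (y, σ) hy hσM
    have hS : ‖∑ j ∈ idx M q, (D.entry M (y, σ) j).eval D.w * ce j‖ ≤ NN M q * b * mx := by
      rw [← norm_neg, ← zero_sub, ← hz, ← Finset.sum_sub_distrib]
      refine (norm_sum_le _ _).trans ?_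
      have : ∀ j ∈ idx M q, ‖(D.entry M (y, σ) j).eval γ * ce j -
          (D.entry M (y, σ) j).eval D.w * ce j‖ ≤ b * mx := by
        intro j hj
        have hj' := (hl.mem_idx M q j).mp hj
        rw [← sub_mul, norm_mul]
        exact mul_le_mul (hL D M (y, σ) j γ hM hy hj'.1 hσM (hj'.2.le.trans (hsq q hqM _)) hδ1)
          (hce_le j hj) (norm_nonneg _) hb0
      refine (Finset.sum_le_card_nsmul _ _ _ this).trans ?_
      rw [nsmul_eq_mul, NN, ← mul_assoc]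
    rw [← hrow, norm_mul] at hS
    calc _ ≤ (D.K₀ ^ (3 * M ^ 2) * ‖D.rowF M (y, σ)‖) * ‖iteratedDeriv σ
          (ep (box M) (fun x => D.lam x * D.L) (pp D M q ce)) (D.mu y)‖ :=
          le_mul_of_one_le_left (norm_nonneg _) hR
      _ ≤ D.K₀ ^ (3 * M ^ 2) * (NN M q * b * mx) := by
          rw [mul_assoc]
          exact mul_le_mul_of_nonneg_left hS (by positivity)
      _ = _ := by ring
  have hj0' := (hl.mem_idx M q j0.1).mp j0.2
  have hLn : 1 / D.K₀ ≤ ‖D.L‖ := by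
    rw [div_le_iff₀ hK0, mul_comm]; exact D.hKL'
  have key := hq (ℤ × ℤ) (ℤ × ℤ) (box M) (box M) (fun x => D.lam x * D.L) (mult M q)
    (pp D M q ce) D.mu (mult M q') (M ^ 2) (1 / D.K₀) (D.K₀ ^ 2 * M) (D.K₀ * M) (Real.exp 4000)
    (D.K₀ ^ (3 * M ^ 2) * (NN M q * b) * mx) (fun x _ => pp_degree D M q ce x) (by positivity)
    (by rw [div_le_one hK0]; linarith)
    (fun i _ j _ hij => by
      rw [← sub_mul, norm_mul]
      exact hLn.trans (le_mul_of_one_le_left (norm_nonneg _) (hl.lam_sep D i j hij)))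
    (by positivity)
    (fun i hi => by
      rw [norm_mul]
      calc _ ≤ D.K₀ * M * D.K₀ :=
            mul_le_mul (hl.lam_le D M i hi) D.hKL (norm_nonneg _) (by positivity)
        _ = _ := by ring)
    (by nlinarith) (fun k hk => hl.mu_le D M k hk) (fun k _ l _ hkl => hl.mu_sep D k l hkl)
    (fun k _ => hsq q' hq'M k) hG
    (by
      rw [← hl.NN_eq, ← hl.NN_eq]
      refine cond _ _ _ h1 (by linarith) (le_trans (le_of_eq ?_) h3)
      ring)
    (by positivity) hsmall j0.1.1 hj0'.1 j0.1.2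
  rw [← hl.NN_eq, ← hl.NN_eq, pp_coeff, if_pos hj0'.2, Prod.mk.eta, hcej, norm_mul] at key
  have hC := colF_ge D hl M j0.1 hj0'.1
  have hfin := fin D.K₀ (D.l0 M) ‖γ - D.w‖ M (NN M q) (NN M q') hK hM hexp (by linarith)
    (by linarith) (by exact_mod_cast hl.NN_le M q' hM hq'M) (norm_nonneg _) hγ
  have h5 : mx ≤ D.K₀ ^ (2 * M ^ 2) * (‖D.colF j0.1‖ * mx) := by
    rw [← mul_assoc]; exact le_mul_of_one_le_left hmx0.le hC
  have h6 := mul_le_mul_of_nonneg_left key (show 0 ≤ D.K₀ ^ (2 * M ^ 2) by positivity)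
  have h7 := mul_lt_mul_of_pos_right hfin hmx0
  rw [← hb] at h7
  have h8 := h5.trans h6
  rw [one_mul] at h7
  refine absurd (h8.trans_eq ?_) (not_le.mpr h7)
  ring

end LogPow
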