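import Pool.Agent.MP_655169_nt.H83.If

open Polynomial NumberField Finset

namespace LogPow

namespace SmallL

theorem pow_bd {x K : ℝ} {k n : ℕ} (hx : 0 ≤ x) (hK : 1 ≤ K) (h : x ≤ K) (hk : k ≤ n) :
    x ^ k ≤ K ^ n :=
  (pow_le_pow_left₀ hx h k).trans (pow_le_pow_right₀ hK hk)

theorem w_le (D : Data) : ‖D.w‖ ≤ D.K₀ := by
  have := D.hKw
  unfold Data.w
  linarith

theorem colF_le (hl : LatStmt) (D : Data) {M : ℕ} {c : (ℤ × ℤ) × ℕ} (hc : c.1 ∈ box M) :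
    ‖D.colF c‖ ≤ (D.K₀ ^ 2) ^ (M ^ 2) := by
  have hK := D.hK
  unfold Data.colF
  rw [norm_pow, ← pow_mul]
  exact pow_bd (norm_nonneg _) (by linarith) (w_le D) (hl.tri_box M _ hc)

theorem rowF_le (hl : LatStmt) (D : Data) {M : ℕ} {r : (ℤ × ℤ) × ℕ} (hr : r.1 ∈ box M)
    (h2 : r.2 ≤ M ^ 2) : ‖D.rowF M r‖ ≤ (D.K₀ ^ 4) ^ (M ^ 2) := by
  have hK := D.hK
  have h1 : (1 : ℝ) ≤ D.K₀ := by linarith
  have a1 : ‖(D.n₀ : ℂ) ^ ((1 + D.a.natAbs + D.b.natAbs) * M ^ 2)‖ ≤ D.K₀ ^ (M ^ 2) := by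
    rw [norm_pow, pow_mul, Complex.norm_natCast]
    refine pow_le_pow_left₀ (by positivity) (le_trans ?_ D.hKα) _
    refine pow_le_pow_left₀ (by positivity) ?_ _
    exact le_mul_of_one_le_right (by positivity) (Real.one_le_exp (norm_nonneg _))
  have a2 : ‖D.w ^ (tri r.1.1 + tri r.1.2)‖ ≤ D.K₀ ^ (2 * M ^ 2) := by
    rw [norm_pow]
    exact pow_bd (norm_nonneg _) h1 (w_le D) (hl.tri_box M _ hr)
  have a3 : ‖D.A.eval D.w ^ r.2‖ ≤ D.K₀ ^ (M ^ 2) := by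
    rw [norm_pow]
    exact pow_bd (norm_nonneg _) h1 (D.hKA D.w (by unfold Data.w; linarith)).1 h2
  unfold Data.rowF
  rw [norm_mul, norm_mul]
  calc _ ≤ D.K₀ ^ (M ^ 2) * D.K₀ ^ (2 * M ^ 2) * D.K₀ ^ (M ^ 2) := by gcongr
    _ = _ := by rw [← pow_mul, ← pow_add, ← pow_add]; congr 1; ring

theorem fn_le (hl : LatStmt) (D : Data) {M q : ℕ} {c : (ℤ × ℤ) × ℕ} (hc : c.1 ∈ box M)
    (h2 : c.2 ≤ M ^ 2) (hM : 1 ≤ M) (hq : q ≤ M) (z : ℂ)
    (hz : ‖z‖ = 2 * Real.exp 1 * (D.K₀ * M) * (q : ℝ) ^ 2) :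
    ‖D.fn c z‖ ≤ ((2 * D.K₀ ^ 2 * M) ^ 3) ^ (M ^ 2) * Real.exp (6 * D.K₀ ^ 3 * M ^ 2 * q ^ 2) := by
  have hK := D.hK
  have hM' : (1 : ℝ) ≤ M := by exact_mod_cast hM
  have hq' : (q : ℝ) ≤ M := by exact_mod_cast hq
  have he : Real.exp 1 ≤ 3 := by linarith [Real.exp_one_lt_d9]
  have z1 : ‖z‖ ≤ 6 * (D.K₀ * M) * (q : ℝ) ^ 2 := by
    rw [hz]
    gcongr
    linarith
  have k1 : (1 : ℝ) ≤ D.K₀ := by linarith
  have z2 : ‖z‖ ≤ (2 * D.K₀ ^ 2 * M) ^ 3 := by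
    calc ‖z‖ ≤ 6 * (D.K₀ * M) * (M : ℝ) ^ 2 := z1.trans (by gcongr)
      _ = 6 * D.K₀ ^ 1 * (M : ℝ) ^ 3 := by ring
      _ ≤ 8 * D.K₀ ^ 6 * (M : ℝ) ^ 3 := by gcongr <;> norm_num
      _ = _ := by ring
  have t1 : (1 : ℝ) ≤ 2 * D.K₀ ^ 2 * M := by nlinarith
  unfold Data.fn
  rw [norm_mul, norm_pow]
  refine mul_le_mul (pow_bd (norm_nonneg _) (one_le_pow₀ t1) z2 h2) ?_ (norm_nonneg _)
    (by positivity)
  refine (Complex.norm_exp_le_exp_norm _).trans (Real.exp_le_exp.2 ?_)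
  rw [norm_mul, norm_mul]
  have a1 := hl.lam_le D M _ hc
  have a2 := D.hKL
  calc _ ≤ D.K₀ * M * D.K₀ * (6 * (D.K₀ * M) * (q : ℝ) ^ 2) := by gcongr
    _ = _ := by ring

theorem fn_diff (D : Data) (c : (ℤ × ℤ) × ℕ) : Differentiable ℂ (D.fn c) := by
  unfold Data.fn
  fun_prop

theorem comb (N : ℕ) : ((N : ℝ) + 1) ^ N * (N.factorial : ℝ) ≤ Real.exp (2 * (N : ℝ) ^ 2) := by
  have a1 : (N : ℝ) + 1 ≤ Real.exp N := Real.add_one_le_exp _
  have a2 : (N.factorial : ℝ) ≤ (N : ℝ) ^ N := by exact_mod_cast Nat.factorial_le_pow N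
  have a3 : (N : ℝ) ≤ Real.exp N := by linarith
  calc _ ≤ Real.exp N ^ N * Real.exp N ^ N := by
        refine mul_le_mul (pow_le_pow_left₀ (by positivity) a1 _)
          (a2.trans (pow_le_pow_left₀ (by positivity) a3 _)) (by positivity) (by positivity)
    _ = _ := by
        rw [← Real.exp_nat_mul, ← Real.exp_add]
        congr 1
        ring

/-- The product of all the factors. -/
theorem all_le (hl : LatStmt) (D : Data) {M : ℕ} {r c : (ℤ × ℤ) × ℕ} (hr : r.1 ∈ box M)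
    (hc : c.1 ∈ box M) (h2 : r.2 ≤ M ^ 2) (hM : 1 ≤ M) {X : ℝ} (hX : 0 ≤ X) :
    ‖D.rowF M r‖ * ‖D.colF c‖ * (r.2.factorial * (((2 * D.K₀ ^ 2 * M) ^ 3) ^ (M ^ 2) * X)) ≤
      Real.exp (8 * M ^ 2 * D.l0 M) * X := by
  have hK := D.hK
  have hM' : (1 : ℝ) ≤ M := by exact_mod_cast hM
  set T : ℝ := 2 * D.K₀ ^ 2 * M with hT
  have t0 : D.K₀ ^ 2 ≤ T := by nlinarith
  have t1 : (M : ℝ) ≤ T := by
    have : (1 : ℝ) ≤ 2 * D.K₀ ^ 2 := by nlinarith
    exact le_mul_of_one_le_left (by positivity) this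
  have a1 : ‖D.rowF M r‖ ≤ (T ^ 2) ^ (M ^ 2) := by
    refine (rowF_le hl D hr h2).trans (pow_le_pow_left₀ (by positivity) ?_ _)
    calc D.K₀ ^ 4 = (D.K₀ ^ 2) ^ 2 := by ring
      _ ≤ _ := by gcongr
  have a2 : ‖D.colF c‖ ≤ T ^ (M ^ 2) :=
    (colF_le hl D hc).trans (pow_le_pow_left₀ (by positivity) t0 _)
  have a3 : (r.2.factorial : ℝ) ≤ (T ^ 2) ^ (M ^ 2) := by
    have b1 : (r.2.factorial : ℝ) ≤ (r.2 : ℝ) ^ r.2 := by exact_mod_cast Nat.factorial_le_pow _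
    have b2 : (r.2 : ℝ) ≤ (M : ℝ) ^ 2 := by exact_mod_cast h2
    refine b1.trans (pow_bd (by positivity) (by nlinarith) (b2.trans ?_) h2)
    gcongr
  have e : Real.exp (8 * M ^ 2 * D.l0 M) = T ^ (8 * M ^ 2) := by
    have : (8 : ℝ) * M ^ 2 * D.l0 M = ((8 * M ^ 2 : ℕ) : ℝ) * Real.log T := by
      unfold Data.l0
      push_cast
      rfl
    rw [this, Real.exp_nat_mul, Real.exp_log (by linarith)]
  have hT0 : 0 ≤ T := by linarith
  calc _ ≤ (T ^ 2) ^ (M ^ 2) * T ^ (M ^ 2) * ((T ^ 2) ^ (M ^ 2) * ((T ^ 3) ^ (M ^ 2) * X)) := by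
        gcongr
    _ = _ := by
        rw [e, pow_mul T 8, ← mul_assoc, ← mul_assoc, ← mul_pow, ← mul_pow, ← mul_pow]
        congr 2
        ring

end SmallL

open SmallL in
theorem smallStmt (hl : LatStmt) (he : EvalStmt) (hL : EntLipStmt) (hd : DetStmt)
    (hs : SumMinStmt) (ht : TaylorStmt) : SmallStmt := by
  intro D M q q' ι Y hq2 hqM hq'M hl0 hY hYN z hz
  have hK := D.hK
  have hM : 1 ≤ M := by omega
  have hM' : (2 : ℝ) ≤ M := by exact_mod_cast hq2.trans hqM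
  have hq' : (2 : ℝ) ≤ q := by exact_mod_cast hq2
  have hlog : 0 < Real.log q := Real.log_pos (by linarith)
  have mem : ∀ {t : ℕ}, t ≤ M → ∀ p : idx M t, p.1.1 ∈ box M ∧ p.1.2 ≤ M ^ 2 := fun {t} h p => by
    obtain ⟨a, b⟩ := (hl.mem_idx M t p.1).1 p.2
    exact ⟨a, (b.le.trans (hl.mult_le M t _)).trans (Nat.pow_le_pow_left h 2)⟩
  set N := NN M q with hN
  set X : ℝ := Real.exp (6 * D.K₀ ^ 3 * M ^ 2 * q ^ 2) with hX
  set m : ℝ := ((2 * D.K₀ ^ 2 * M) ^ 3) ^ (M ^ 2) * X with hm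
  set B₂ : ℝ := Real.exp (8 * M ^ 2 * D.l0 M) * X with hB₂
  set B : ℝ := Real.exp (8 * D.K₀ ^ 3 * M ^ 2 * q ^ 2) with hB
  have X1 : 1 ≤ X := Real.one_le_exp (by positivity)
  have l4 : Real.log 4 ≤ D.l0 M := Real.log_le_log (by norm_num) (by nlinarith)
  have l5 : 0 < Real.log 4 := Real.log_pos (by norm_num)
  have B4 : 4 * B₂ ≤ B := by
    have : (4 : ℝ) = Real.exp (Real.log 4) := (Real.exp_log (by norm_num)).symm
    rw [this, hB₂, hX, hB, ← Real.exp_add, ← Real.exp_add, Real.exp_le_exp]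
    have k3 : (8 : ℝ) ≤ D.K₀ ^ 3 := by
      calc (8 : ℝ) = 2 ^ 3 := by norm_num
        _ ≤ _ := by gcongr
    have m1 : (1 : ℝ) ≤ (M : ℝ) ^ 2 := by nlinarith
    have c1 : (M : ℝ) ^ 2 * D.l0 M ≤ (M : ℝ) ^ 2 * (q : ℝ) ^ 2 := by gcongr
    have c2 : 1 * D.l0 M ≤ (M : ℝ) ^ 2 * D.l0 M := by gcongr; linarith
    have c3 : 8 * ((M : ℝ) ^ 2 * (q : ℝ) ^ 2) ≤ D.K₀ ^ 3 * ((M : ℝ) ^ 2 * (q : ℝ) ^ 2) := by gcongr
    have c4 : 0 ≤ (M : ℝ) ^ 2 * (q : ℝ) ^ 2 := by positivity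
    nlinarith
  have B0 : 0 < B₂ := by positivity
  have eE : ∀ k : ℕ, (((q : ℝ) ^ 2)⁻¹) ^ k = Real.exp (-(k * (2 * Real.log q))) := fun k => by
    have : (2 : ℝ) * Real.log q = Real.log ((q : ℝ) ^ 2) := by rw [Real.log_pow]; norm_num
    rw [this, Real.exp_neg, Real.exp_nat_mul, Real.exp_log (by positivity), inv_pow]
  have tay := fun (i j : idx M q) => ht (D.fn j.1) (D.mu (ι i).1.1) (ι i).1.2 N (D.K₀ * M)
    ((q : ℝ) ^ 2) m (fn_diff D _) (by nlinarith) (by nlinarith)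
    (hl.mu_le D M _ (mem hq'M (ι i)).1) (fn_le hl D (mem hqM j).1 (mem hqM j).2 hM hqM)
  have al := fun (i j : idx M q) => all_le hl D (mem hq'M (ι i)).1 (mem hqM j).1
    (mem hq'M (ι i)).2 hM (le_trans zero_le_one X1)
  have key := hd (idx M q) N (Matrix.of fun i j : idx M q => (D.entry M (ι i).1 j.1).eval z)
    (fun i k => D.rowF M (ι i).1 * tc (D.mu (ι i).1.1) (ι i).1.2 k)
    (fun k j => D.colF j.1 * iteratedDeriv k (D.fn j.1) 0)
    (fun i j => (D.entry M (ι i).1 j.1).eval z - ∑ k ∈ range N,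
      D.rowF M (ι i).1 * tc (D.mu (ι i).1.1) (ι i).1.2 k *
        (D.colF j.1 * iteratedDeriv k (D.fn j.1) 0))
    B (2 * Real.log q) Y (by positivity) (by positivity) (fun i j => by simp)
    (fun i k j _ => by
      have e : D.rowF M (ι i).1 * tc (D.mu (ι i).1.1) (ι i).1.2 k *
          (D.colF j.1 * iteratedDeriv k (D.fn j.1) 0) = D.rowF M (ι i).1 * D.colF j.1 *
          (tc (D.mu (ι i).1.1) (ι i).1.2 k * iteratedDeriv k (D.fn j.1) 0) := by ring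
      rw [e, norm_mul, norm_mul, ← eE]
      have a1 := (tay i j).1 k
      have a2 := al i j
      have a3 : 0 ≤ (((q : ℝ) ^ 2)⁻¹) ^ k := by positivity
      calc _ ≤ ‖D.rowF M (ι i).1‖ * ‖D.colF j.1‖ *
            ((ι i).1.2.factorial * m * (((q : ℝ) ^ 2)⁻¹) ^ k) := by gcongr
        _ = ‖D.rowF M (ι i).1‖ * ‖D.colF j.1‖ * ((ι i).1.2.factorial * m) *
            (((q : ℝ) ^ 2)⁻¹) ^ k := by ring
        _ ≤ B * (((q : ℝ) ^ 2)⁻¹) ^ k := mul_le_mul_of_nonneg_right (by linarith) a3)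
    (fun i j => by
      have e : (D.entry M (ι i).1 j.1).eval z - ∑ k ∈ range N,
          D.rowF M (ι i).1 * tc (D.mu (ι i).1.1) (ι i).1.2 k *
            (D.colF j.1 * iteratedDeriv k (D.fn j.1) 0) =
          ((D.entry M (ι i).1 j.1).eval z - (D.entry M (ι i).1 j.1).eval D.w) +
            D.rowF M (ι i).1 * D.colF j.1 *
              (iteratedDeriv (ι i).1.2 (D.fn j.1) (D.mu (ι i).1.1) - ∑ k ∈ range N,
                tc (D.mu (ι i).1.1) (ι i).1.2 k * iteratedDeriv k (D.fn j.1) 0) := by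
        rw [he, mul_sub, mul_sum, sub_add_sub_cancel]
        congr 1
        exact sum_congr rfl fun k _ => by ring
      rw [e]
      have y0 : 0 < Real.exp (-Y) := Real.exp_pos _
      have a0 := hL D M (ι i).1 j.1 z hM (mem hq'M (ι i)).1 (mem hqM j).1 (mem hq'M (ι i)).2
        (mem hqM j).2 (by rw [hz]; exact Real.exp_lt_one_iff.2 (by linarith))
      rw [hz] at a0
      have a1 := (tay i j).2
      have a2 := al i j
      have a3 : (((q : ℝ) ^ 2)⁻¹) ^ N ≤ Real.exp (-Y) := by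
        rw [eE, Real.exp_le_exp]
        linarith
      have a4 : Real.exp (7 * M ^ 2 * D.l0 M) ≤ B₂ := by
        refine le_trans (Real.exp_le_exp.2 ?_) (le_mul_of_one_le_right (by positivity) X1)
        have : 0 ≤ (M : ℝ) ^ 2 * D.l0 M := mul_nonneg (by positivity) (by linarith)
        nlinarith
      have m0 : 0 ≤ m := by positivity
      refine (norm_add_le _ _).trans ?_
      rw [norm_mul, norm_mul]
      calc _ ≤ 2 * B₂ * Real.exp (-Y) + ‖D.rowF M (ι i).1‖ * ‖D.colF j.1‖ *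
            (2 * (ι i).1.2.factorial * m * Real.exp (-Y)) := by
            refine add_le_add (a0.trans (by gcongr)) ?_
            exact mul_le_mul_of_nonneg_left (a1.trans (by gcongr)) (by positivity)
        _ = (2 * B₂ + 2 * (‖D.rowF M (ι i).1‖ * ‖D.colF j.1‖ * ((ι i).1.2.factorial * m))) *
            Real.exp (-Y) := by ring
        _ ≤ B * Real.exp (-Y) := mul_le_mul_of_nonneg_right (by linarith) y0.le)
  have e1 : (D.minor M q q' ι).eval z =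
      (Matrix.of fun i j : idx M q => (D.entry M (ι i).1 j.1).eval z).det := by
    unfold Data.minor
    rw [← coe_evalRingHom, RingHom.map_det]
    rfl
  have e2 : Fintype.card (idx M q) = N := Fintype.card_coe _
  rw [e2] at key
  rw [e1]
  refine key.trans ?_
  have s1 := hs N (2 * Real.log q) Y (by positivity) hY.le
  have s2 := comb N
  calc _ ≤ Real.exp (2 * (N : ℝ) ^ 2) * B ^ N *
        Real.exp (-(N * Y - Y - Y ^ 2 / (2 * (2 * Real.log q)))) := by gcongr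
    _ = _ := by
      rw [hB, ← Real.exp_nat_mul, ← Real.exp_add, ← Real.exp_add]
      congr 1
      ring

end LogPow
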