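import Pool.Agent.MP_655169_nt.H83.If

open Polynomial NumberField Finset

namespace LogPow

namespace Num1L

theorem prod_bd {K₀ y k l M q q' : ℝ} (R : Rel K₀ y k l M q q') (hl : 0 < l) :
    49 * (l * (M ^ 2 * q ^ 2)) ≤ 20 * y ^ 2 ∧
      0.9996 * (20 * y ^ 2) ≤ 49 * (l * (M ^ 2 * q ^ 2)) := by
  have hk : 0 < k := by linarith [R.hk]
  have hy : 0 < y := by linarith [R.hy]
  constructor
  · refine le_of_mul_le_mul_left ?_ hk
    calc k * (49 * (l * (M ^ 2 * q ^ 2))) = (7 * k * M ^ 2) * (7 * l * q ^ 2) := by ring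
      _ ≤ (4 * y) * (5 * y * k) := mul_le_mul R.hM1 R.hq1 (by positivity) (by positivity)
      _ = k * (20 * y ^ 2) := by ring
  · refine le_of_mul_le_mul_left ?_ hk
    have h0 : 0 ≤ k * y ^ 2 := by positivity
    calc k * (0.9996 * (20 * y ^ 2)) ≤ (0.9998 * (4 * y)) * (0.9998 * (5 * y * k)) := by
          nlinarith
      _ ≤ (7 * k * M ^ 2) * (7 * l * q ^ 2) :=
          mul_le_mul R.hM2 R.hq2 (by positivity) (by positivity)
      _ = k * (49 * (l * (M ^ 2 * q ^ 2))) := by ring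

end Num1L

theorem num1 : Num1Stmt := by
  intro K₀ y k l M q q' N U V N' U' V' R B B'
  have hK := R.hK
  have hK3 : 8 ≤ K₀ ^ 3 := by
    have := pow_le_pow_left₀ (by norm_num : (0 : ℝ) ≤ 2) hK 3
    linarith
  have hl : 800000 ≤ l := by linarith [R.hl]
  have hq : 800000 ≤ q := hl.trans R.hlq
  have hqq : q ≤ q' := by linarith [R.hq3]
  obtain ⟨h1, h2⟩ := Num1L.prod_bd R (by linarith)
  have hM : 0 ≤ M ^ 2 := sq_nonneg M
  have hP : 0 ≤ M ^ 2 * q ^ 2 := by positivity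
  have hN1 : 16 / 9 * (0.9999 * (M ^ 2 * q ^ 2)) ≤ N := by
    have a : 0.9999 * q ^ 2 ≤ (q - 3) ^ 2 := by nlinarith
    have b := mul_le_mul_of_nonneg_left a hM
    have c := B.1
    nlinarith
  have hN2 : N ≤ 16 / 9 * (M ^ 2 * q ^ 2) := by linarith [B.2.1]
  have hN1' : 16 / 9 * (1.001 * (M ^ 2 * q ^ 2)) ≤ N' := by
    have a0 : q * (1 + 1 / 2000) ≤ q' - 3 := by linarith [R.hq3]
    have a1 : (q * (1 + 1 / 2000)) ^ 2 ≤ (q' - 3) ^ 2 := pow_le_pow_left₀ (by positivity) a0 2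
    have a : 1.001 * q ^ 2 ≤ (q' - 3) ^ 2 := by nlinarith [sq_nonneg q]
    have b := mul_le_mul_of_nonneg_left a hM
    have c := B'.1
    nlinarith
  have hN2' : N' ≤ 16 / 9 * (1.002001 * (M ^ 2 * q ^ 2)) := by
    have a1 : q' ^ 2 ≤ (1.001 * q) ^ 2 := pow_le_pow_left₀ (by linarith) R.hq4 2
    have b := mul_le_mul_of_nonneg_left a1 hM
    have c := B'.2.1
    nlinarith
  refine ⟨by linarith, by linarith, hqq, ?_, by linarith, by linarith, ?_, ?_, ?_⟩
  · have := R.hlog1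
    have := R.hlq
    nlinarith
  · have := mul_le_mul_of_nonneg_left R.hG hM
    nlinarith
  · have a : (16 / 9 * (0.9999 * (M ^ 2 * q ^ 2))) * (0.999 * l) ≤ N * Real.log q :=
      mul_le_mul hN1 R.hlog2 (by positivity) (by linarith)
    nlinarith [sq_nonneg y]
  · have a : N' * Real.log (2 * K₀ ^ 2 * M) ≤ N' * (1.0001 * l) :=
      mul_le_mul_of_nonneg_left R.hlog1 (by linarith)
    have b : N' * (1.0001 * l) ≤ (16 / 9 * (1.002001 * (M ^ 2 * q ^ 2))) * (1.0001 * l) :=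
      mul_le_mul_of_nonneg_right hN2' (by positivity)
    have c : N' * Real.log (2 * K₀ ^ 2 * M) ≤ 2 * y ^ 2 := by nlinarith [sq_nonneg y]
    have d := mul_le_mul_of_nonneg_left c (by linarith : 0 ≤ 2100 + K₀ ^ 3)
    linarith

end LogPow
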