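import Pool.Agent.MP_655169_nt.H83.If

/-! The numerical bound for the degree. -/

namespace LogPow

open Polynomial NumberField Finset

theorem num2 : Num2Stmt := by
  intro K₀ y k l M q q' N U V N' U' V' h ⟨_, _, hU, _⟩ ⟨_, _, hU', hV'⟩
  have hK := h.hK
  have hk : 0 < k := by linarith [h.hk]
  have hy : 0 < y := by linarith [h.hy]
  have hl : 800000 ≤ l := by
    have : (2 : ℝ) ^ 3 ≤ K₀ ^ 3 := pow_le_pow_left₀ (by norm_num) hK 3
    linarith [h.hl]
  have hl0 : 0 < l := by linarith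
  have hq : 800000 ≤ q := hl.trans h.hlq
  have hq' : q ≤ q' := by linarith [h.hq3]
  have hM : 800000 ≤ M := (hq.trans hq').trans h.hq5
  have hM0 : 0 < M := by linarith
  have hq0 : 0 < q := by linarith
  have h3 : M ^ 3 ≤ M ^ 4 / 800000 := by
    have := mul_le_mul_of_nonneg_left hM (pow_pos hM0 3).le
    linarith [pow_succ M 3]
  have q2 : q' ^ 2 ≤ (1.001 * q) ^ 2 := pow_le_pow_left₀ (by linarith) h.hq4 2
  have q4 : q' ^ 4 ≤ (1.001 * q) ^ 4 := pow_le_pow_left₀ (by linarith) h.hq4 4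
  have u1 : U ≤ (32 / 45 + 1 / 150000) * (q ^ 2 * M ^ 4) := by
    linarith [mul_le_mul_of_nonneg_left h3 (sq_nonneg q)]
  have u2 : U' ≤ (32 / 45 + 1 / 150000) * (1.001 ^ 2 * (q ^ 2 * M ^ 4)) := by
    linarith [mul_le_mul_of_nonneg_left h3 (sq_nonneg q'),
      mul_le_mul_of_nonneg_right q2 (pow_pos hM0 4).le]
  have v2 : V' ≤ 128 / 225 * (1.001 ^ 4 * (q ^ 4 * M ^ 2)) := by
    linarith [mul_le_mul_of_nonneg_right q4 (sq_nonneg M)]
  have a : 343 * (q ^ 2 * M ^ 4 * (k * l)) ≤ 80 * y ^ 3 := by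
    have := mul_le_mul (pow_le_pow_left₀ (by positivity) h.hM1 2) h.hq1 (by positivity)
      (by positivity)
    exact le_of_mul_le_mul_right (by linarith) hk
  have b : 343 * (l ^ 2 * q ^ 4 * M ^ 2) ≤ 100 * y ^ 3 * k := by
    have := mul_le_mul (pow_le_pow_left₀ (by positivity) h.hq1 2) h.hM1 (by positivity)
      (by positivity)
    exact le_of_mul_le_mul_right (by linarith) hk
  have c : 3430 * (q ^ 4 * M ^ 2 * (K₀ * (k * l))) ≤ y ^ 3 := by
    have h1 := mul_le_mul_of_nonneg_left b (show 0 ≤ K₀ * k by positivity)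
    have h2 := mul_le_mul_of_nonneg_left h.hkc (pow_pos hy 3).le
    exact le_of_mul_le_mul_right (by linarith) hl0
  have hkl : 0 ≤ k * l := by positivity
  have d1 := mul_le_mul_of_nonneg_right u1 hkl
  have d2 := mul_le_mul_of_nonneg_right u2 hkl
  have d3 := mul_le_mul_of_nonneg_right v2 (show 0 ≤ K₀ * (k * l) by positivity)
  rw [le_div_iff₀ (by positivity)]
  linarith [pow_pos hy 3]

end LogPow
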