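import Pool.Agent.MP_655169_nt.H83.If

open Polynomial NumberField Finset

namespace LogPow

namespace Num4L

theorem core (K Y l Z P N L : ℝ) (hK : 8 ≤ K) (hl : 100000 * K ≤ l) (hY : Y = Z * l)
    (hZ : 10000 ≤ Z) (hP : P ≤ 0.40817 * Z) (hN : 0.72529 * Z ≤ N)
    (hN' : N ≤ 0.72564 * Z) (hL : 0.999 * l ≤ L) :
    71 / 150 * (Y * Z) ≤ N * Y - Y - Y ^ 2 / (4 * L) - 2 * N ^ 2 - 8 * K * P * N := by
  have l0 : 0 < l := by linarith
  have Z0 : 0 < Z := by linarith
  have Y0 : 0 < Y := by rw [hY]; positivity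
  have N0 : 0 ≤ N := by linarith
  have ZZ : 0 < Z * Z := by positivity
  have e : Y * Z = Z * Z * l := by rw [hY]; ring
  have a1 : 0.72529 * Z * Y ≤ N * Y := mul_le_mul_of_nonneg_right hN Y0.le
  have a2 : Y * 10000 ≤ Y * Z := mul_le_mul_of_nonneg_left hZ Y0.le
  have a3 : Y ^ 2 / (4 * L) ≤ 0.250251 * (Y * Z) := by
    rw [div_le_iff₀ (by linarith)]
    have h := mul_le_mul_of_nonneg_left hL (mul_pos Y0 Z0).le
    have e' : Y ^ 2 = Y * Z * l := by rw [pow_two, mul_assoc, ← hY]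
    have p : 0 < Y * Z * l := by positivity
    rw [e']
    linarith
  have a4 : N ^ 2 ≤ (0.72564 * Z) ^ 2 := pow_le_pow_left₀ N0 hN' 2
  have a5 : P * N ≤ 0.40817 * Z * (0.72564 * Z) := mul_le_mul hP hN' N0 (by linarith)
  have a6 : K * (P * N) ≤ K * (0.40817 * Z * (0.72564 * Z)) :=
    mul_le_mul_of_nonneg_left a5 (by linarith)
  have a7 : Z * Z * (100000 * K) ≤ Z * Z * l := mul_le_mul_of_nonneg_left hl ZZ.le
  have a8 : Z * Z * 8 ≤ Z * Z * K := mul_le_mul_of_nonneg_left hK ZZ.le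
  nlinarith

end Num4L

theorem num4 : Num4Stmt := by
  intro K₀ y k l M q q' N U V h ⟨b1, b2, _, _⟩
  obtain ⟨hK, hy, hk, m1, m2, q1, q2, r1, -, r3, -, lq, -, -, l1, l2, -⟩ := h
  have K3 : 8 ≤ K₀ ^ 3 := by
    have := pow_le_pow_left₀ (by norm_num) hK 3
    linarith
  have l0 : 0 < l := by linarith
  have k0 : 0 < k := by linarith
  have q0 : 800000 ≤ q := by linarith
  have M0 : 800000 ≤ M := by linarith
  obtain ⟨Z, hZ⟩ : ∃ Z, y ^ 2 = Z * l := ⟨y ^ 2 / l, by field_simp⟩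
  have kl : 0 < k * l := by positivity
  have u1 : M ^ 2 * q ^ 2 ≤ 20 / 49 * Z := by
    have h := mul_le_mul m1 q1 (by positivity) (by positivity)
    refine le_of_mul_le_mul_left ?_ kl
    have e : 4 * y * (5 * y * k) = 20 * (k * l) * Z := by linear_combination 20 * k * hZ
    rw [e] at h
    linarith
  have u2 : 0.9998 ^ 2 * (20 / 49) * Z ≤ M ^ 2 * q ^ 2 := by
    have h := mul_le_mul m2 q2 (by positivity) (by positivity)
    refine le_of_mul_le_mul_left ?_ kl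
    have e : 0.9998 * (4 * y) * (0.9998 * (5 * y * k)) = 0.9998 ^ 2 * 20 * (k * l) * Z := by
      linear_combination 0.9998 ^ 2 * 20 * k * hZ
    rw [e] at h
    linarith
  have u3 : (100 : ℝ) ^ 2 * 1 ^ 2 ≤ M ^ 2 * q ^ 2 :=
    mul_le_mul (pow_le_pow_left₀ (by norm_num) (by linarith) 2)
      (pow_le_pow_left₀ (by norm_num) (by linarith) 2) (by norm_num) (by positivity)
  have u4 : (4 / 3 * M * (0.99999 * q)) ^ 2 ≤ (4 / 3 * M * (q - 3)) ^ 2 :=
    pow_le_pow_left₀ (by positivity)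
      (mul_le_mul_of_nonneg_left (by linarith) (by positivity)) 2
  have key := Num4L.core (K₀ ^ 3) (y ^ 2) l Z (M ^ 2 * q ^ 2) N (Real.log q) K3 l1 hZ
    (by linarith) (by linarith) (by nlinarith) (by linarith) lq
  have e : 71 / 50 * (y ^ 3 / (3 * l)) * y = 71 / 150 * (y ^ 2 * Z) := by
    field_simp
    linear_combination 150 * hZ
  rw [e]
  linarith

end LogPow
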