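import Pool.Agent.MP_655169_nt.H83.If

/-! Assembly of the criterion, of the auxiliary determinants and of the theorem. -/

open Polynomial NumberField Finset

namespace LogPow

theorem auxK_of_aux {K : Type} [Field K] {φ : K →+* ℂ} {S : Subring ℂ} (H : HtData K φ S) {w : ℂ}
    (h : Aux S w) : ∃ C₀ C c y₀ : ℝ, 1 ≤ C₀ ∧ 10 ≤ C ∧ 0 < c ∧ AuxK φ H.h w C₀ C c y₀ := by
  obtain ⟨C₀, C, c, y₀, h1, h2, h3, h4⟩ := h
  refine ⟨C₀, C, c, y₀, h1, h2, h3, ?_⟩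
  intro y k hy hk hk' γ hγ
  obtain ⟨Δ, Λ, hΛ, hS, hne, hd, hh, hW⟩ := h4 y k hy hk hk' γ hγ
  have hl : Δ ∈ Polynomial.lifts φ := by
    rw [Polynomial.lifts_iff_coeff_lifts]
    intro n
    obtain ⟨x, hx⟩ := H.lift _ (hS n)
    exact ⟨x, hx⟩
  obtain ⟨P, hP⟩ := (Polynomial.mem_lifts _).1 hl
  subst hP
  have hP0 : P ≠ 0 := by
    rintro rfl
    simp at hne
  refine ⟨P, Λ, hΛ, hne, ?_, ?_, hW⟩
  · rwa [Polynomial.natDegree_map] at hd
  · exact (H.le_mahler P hP0 hS).trans hh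

theorem critStmt (hN : NotRootStmt) (hSel : SelectStmt) (hB : BalStmt) (hF : FinStmt) :
    CritStmt := by
  intro K _ φ S H w hA
  obtain ⟨C₀, C, c, y₀, h1, h2, h3, h4⟩ := auxK_of_aux H hA
  obtain ⟨y₁, hy₁⟩ := hB K φ S H w C₀ C c y₀ h1 h2 h3 h4
  set t : ℝ := max C (1 / c) with ht
  set y : ℝ := max (max y₀ y₁) (Real.exp (t ^ 4)) with hy
  have ht0 : 10 ≤ t := h2.trans (le_max_left _ _)
  have hy0 : y₀ ≤ y := (le_max_left _ _).trans (le_max_left _ _)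
  have hy1 : y₁ ≤ y := (le_max_right _ _).trans (le_max_left _ _)
  have hye : Real.exp (t ^ 4) ≤ y := le_max_right _ _
  have hypos : 0 < y := (Real.exp_pos _).trans_le hye
  have hy_one : 1 ≤ y := (Real.one_le_exp (by positivity)).trans hye
  have hlog : t ^ 4 ≤ Real.log y := by
    rw [Real.le_log_iff_exp_le hypos]; exact hye
  set k₀ : ℝ := Real.sqrt (Real.sqrt (Real.log y)) with hk₀
  have hk₀t : t ≤ k₀ := by
    apply Real.le_sqrt_of_sq_le
    apply Real.le_sqrt_of_sq_le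
    nlinarith
  have hk₀pos : 0 < k₀ := by linarith
  have hsq : k₀ ^ 2 = Real.sqrt (Real.log y) := Real.sq_sqrt (Real.sqrt_nonneg _)
  have hCk : C ≤ k₀ := (le_max_left _ _).trans hk₀t
  have hkc : k₀ ≤ c * Real.sqrt (Real.log y) := by
    rw [← hsq]
    have : 1 / c ≤ k₀ := (le_max_right _ _).trans hk₀t
    rw [div_le_iff₀ h3] at this
    nlinarith
  obtain ⟨Δ, Λ, hΛ, hne, hd, hh, hW⟩ := h4 y k₀ hy0 hCk hkc w (by simp [Real.exp_nonneg])
  have hΔ0 : Δ ≠ 0 := by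
    rintro rfl
    simp at hne
  have hh' : H.h Δ / k₀ ≤ Λ := by rw [div_le_iff₀ hk₀pos]; exact hh
  obtain ⟨Q, hQ, hQW⟩ := hSel K φ S H w (y ^ 2) (0.7075 * y * k₀) (0.7075 * y / k₀) Δ hΔ0 (by
    have e : 0.7075 * y * k₀ * (Δ.natDegree : ℝ) + 0.7075 * y / k₀ * H.h Δ =
        0.7075 * y * ((Δ.natDegree : ℝ) * k₀ + H.h Δ / k₀) := by ring
    rw [e]
    have : 0.7075 * y * ((Δ.natDegree : ℝ) * k₀ + H.h Δ / k₀) ≤ 0.7075 * y * (Λ + Λ) := by
      gcongr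
    have h5 : 0 < Λ * y := mul_pos hΛ hypos
    nlinarith)
  have e : 0.7075 * y * k₀ * (Q.natDegree : ℝ) + 0.7075 * y / k₀ * H.h Q =
      0.7075 * y * ((Q.natDegree : ℝ) * k₀ + H.h Q / k₀) := by ring
  rw [e] at hQW
  have hQ0 : 0 ≤ H.h Q := H.nonneg Q hQ.ne_zero
  have hs0 : 0 ≤ (Q.natDegree : ℝ) * k₀ + H.h Q / k₀ := by positivity
  obtain ⟨hb1, hb2⟩ := hy₁ y hy1 Q hQ (by
    have : 0 ≤ y * ((Q.natDegree : ℝ) * k₀ + H.h Q / k₀) := by positivity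
    nlinarith)
  refine hF K φ S H w C₀ C c y₀ h2 h3 h4 Q y hQ (hN K φ S H w C₀ C c y₀ h2 h3 h4 Q hQ) hy_one hy0
    hb1 hb2 ?_
  have hg : 2 * Real.sqrt ((Q.natDegree : ℝ) * H.h Q) ≤ (Q.natDegree : ℝ) * k₀ + H.h Q / k₀ := by
    have : Real.sqrt ((Q.natDegree : ℝ) * H.h Q) ≤ ((Q.natDegree : ℝ) * k₀ + H.h Q / k₀) / 2 := by
      apply Real.sqrt_le_iff.2
      refine ⟨by positivity, ?_⟩
      have e2 : (Q.natDegree : ℝ) * H.h Q = ((Q.natDegree : ℝ) * k₀) * (H.h Q / k₀) := by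
        field_simp
      rw [e2]
      nlinarith [sq_nonneg ((Q.natDegree : ℝ) * k₀ - H.h Q / k₀)]
    linarith
  have h2' : Real.sqrt 2 ≤ 1.415 := by
    apply Real.sqrt_le_iff.2
    norm_num
  have hg0 : 0 ≤ Real.sqrt ((Q.natDegree : ℝ) * H.h Q) := Real.sqrt_nonneg _
  calc Real.sqrt 2 * y * Real.sqrt ((Q.natDegree : ℝ) * H.h Q)
      ≤ 1.415 * y * Real.sqrt ((Q.natDegree : ℝ) * H.h Q) := by gcongr
    _ = 0.7075 * y * (2 * Real.sqrt ((Q.natDegree : ℝ) * H.h Q)) := by ring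
    _ ≤ 0.7075 * y * ((Q.natDegree : ℝ) * k₀ + H.h Q / k₀) := by gcongr
    _ ≤ _ := hQW.le

theorem auxStmt (hP : ProfStmt) (hI : IntStmt) (hD : DegStmt) (hH : HtMinorStmt) (hS : SmallStmt)
    (hR : RankStmt) (hM : MinorStmt) (hJ : JensenStmt) (n0 : Num0Stmt) (n1 : Num1Stmt)
    (n2 : Num2Stmt) (n3 : Num3Stmt) (n4 : Num4Stmt) : AuxStmt := by
  intro D
  have hK := D.hK
  obtain ⟨y₀, hy₀⟩ := n0 D.K₀ hK
  have hK3 : 0 < D.K₀ ^ 3 := by positivity
  refine ⟨2 * (2100 + D.K₀ ^ 3), 100 * D.K₀, 1 / (100 * D.K₀), y₀, by linarith, by linarith,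
    by positivity, ?_⟩
  intro y k hy hk hk' γ hγ
  obtain ⟨M, q, q', hrel⟩ := hy₀ y k hy hk hk'
  have hl : 100000 ≤ Real.log y / 2 := by
    have := hrel.hl
    have h8 : (2 : ℝ) ^ 3 ≤ D.K₀ ^ 3 := by gcongr
    nlinarith
  have hq : (100000 : ℝ) ≤ q := hl.trans hrel.hlq
  have hqq : (q : ℝ) ≤ q' := by have := hrel.hq3; nlinarith
  have hq'M : q' ≤ M := by exact_mod_cast hrel.hq5
  have hqq' : q ≤ q' := by exact_mod_cast hqq
  have hq3 : 3 ≤ q := by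
    have : (3 : ℝ) ≤ q := by linarith
    exact_mod_cast this
  have hqM : q ≤ M := hqq'.trans hq'M
  have hM1 : 1 ≤ M := by omega
  have b1 := hP M q hq3 hqM
  have b2 := hP M q' (hq3.trans hqq') hq'M
  obtain ⟨hl0, -, -, t0, t1, t2, t3, t4, t5⟩ := n1 _ _ _ _ _ _ _ _ _ _ _ _ _ hrel b1 b2
  have hy1 := hrel.hy
  have hrank := hR D M q q' γ hM1 hqM hq'M t1 t2 t3 (hγ.trans (by
    apply Real.exp_le_exp.2
    simp only [Data.l0]
    linarith))
  obtain ⟨ι, hι, hdet⟩ := hM _ _ _ hrank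
  have hev : (D.minor M q q' ι).eval γ ≠ 0 := by
    have : (D.minor M q q' ι).eval γ = ((Matrix.of fun (i : idx M q') (j : idx M q) =>
        (D.entry M i.1 j.1).eval γ).submatrix ι id).det := by
      unfold Data.minor
      rw [← Polynomial.coe_evalRingHom, RingHom.map_det]
      rfl
    rw [this]; exact hdet
  have hne : D.minor M q q' ι ≠ 0 := by
    intro h; rw [h] at hev; simp at hev
  refine ⟨D.minor M q q' ι, y ^ 3 / (3 * (Real.log y / 2)), by positivity, hI D M q q' ι, hev,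
    ?_, ?_, ?_⟩
  · refine le_trans ?_ (n2 _ _ _ _ _ _ _ _ _ _ _ _ _ hrel b1 b2)
    have := hD D M q q' ι hι
    have hk0 : 0 ≤ k := by have := hrel.hk; linarith
    gcongr
  · exact (hH D M q q' ι hι hM1 hqM hne).trans (n3 _ _ _ _ _ _ _ _ _ _ _ _ _ hrel b1 b2)
  · refine (n4 _ _ _ _ _ _ _ _ _ _ hrel b1).trans ?_
    apply hJ
    · exact D.hS _ (hI D M q q' ι _) (Polynomial.leadingCoeff_ne_zero.2 hne)
    · positivity
    · exact hS D M q q' ι (y ^ 2) (by omega) hqM hq'M t0 (by positivity) t4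

theorem mainOf (hC : CritStmt) (hA : AuxStmt) (hH : HtStmt) (hN : NormStmt) (hCl : ClearStmt)
    (hK0 : K0Stmt) (β : ℂ) (a b : ℤ) (hβ : β ^ 2 = a * β + b) (him : β.im ≠ 0) (L : ℂ)
    (hL : L ≠ 0) (hα : Complex.exp L ∈ IntermediateField.adjoin ℚ {β}) :
    L ∉ IntermediateField.adjoin ℚ {β, Complex.exp (β * L)} := by
  intro hmem
  obtain ⟨inst, hns⟩ := hN β a b hβ him
  set K := IntermediateField.adjoin ℚ {β} with hKdef
  set φ : K →+* ℂ := K.val.toRingHom with hφ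
  set w := Complex.exp (β * L) with hw
  obtain ⟨H⟩ := hH K φ hns
  obtain ⟨c1, c2, c3, c4⟩ := hCl K φ
  have hφa : ∀ x : K, φ x = (x : ℂ) := fun x => rfl
  have hmem' : L ∈ IntermediateField.adjoin K {w} := by
    have e := IntermediateField.adjoin_adjoin_left ℚ ({β} : Set ℂ) ({w} : Set ℂ)
    have : L ∈ IntermediateField.adjoin ℚ (({β} : Set ℂ) ∪ {w}) := by
      rw [← Set.insert_eq]; exact hmem
    rw [← e] at this
    exact this
  obtain ⟨r, s, hrs⟩ := (IntermediateField.mem_adjoin_simple_iff K L).1 hmem'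
  have hφm : φ = algebraMap K ℂ := rfl
  have hs0 : aeval w s ≠ 0 := by
    intro h; rw [h, div_zero] at hrs; exact hL hrs
  obtain ⟨nr, hnr, hr⟩ := c2 r
  obtain ⟨ns, hns1, hs⟩ := c2 s
  have hαinv : Complex.exp (-L) ∈ K := by
    rw [Complex.exp_neg]; exact K.inv_mem hα
  obtain ⟨m1, hm1, hm1'⟩ := c1 ⟨_, hα⟩
  obtain ⟨m2, hm2, hm2'⟩ := c1 ⟨_, hαinv⟩
  have hβK : β ∈ K := IntermediateField.mem_adjoin_simple_self ℚ β
  have hβS : β ∈ SK φ := by
    apply c3 ⟨β, hβK⟩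
    refine ⟨X ^ 2 - (C a * X + C b), ?_, ?_⟩
    · apply Polynomial.monic_X_pow_sub
      exact lt_of_le_of_lt Polynomial.degree_linear_le (by norm_num)
    · rw [eval₂_sub, eval₂_add, eval₂_mul, eval₂_pow, eval₂_X, eval₂_C, eval₂_C]
      exact sub_eq_zero.2 hβ
  set A : ℂ[X] := C (nr : ℂ) * (C (ns : ℂ) * s.map φ) with hAdef
  set B : ℂ[X] := C (ns : ℂ) * (C (nr : ℂ) * r.map φ) with hBdef
  have hnat : ∀ (n : ℕ) (P : ℂ[X]), InS (SK φ) P → InS (SK φ) (C (n : ℂ) * P) := by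
    intro n P hP i
    rw [coeff_C_mul]
    exact (SK φ).mul_mem (natCast_mem _ n) (hP i)
  have hevs : (s.map φ).eval w = aeval w s := by rw [hφm, Polynomial.eval_map_algebraMap]
  have hevr : (r.map φ).eval w = aeval w r := by rw [hφm, Polynomial.eval_map_algebraMap]
  have hnr0 : (nr : ℂ) ≠ 0 := by exact_mod_cast (by omega : nr ≠ 0)
  have hns0 : (ns : ℂ) ≠ 0 := by exact_mod_cast (by omega : ns ≠ 0)
  have hAw : A.eval w ≠ 0 := by
    simp only [hAdef, eval_mul, eval_C, hevs]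
    exact mul_ne_zero hnr0 (mul_ne_zero hns0 hs0)
  have hAB : B.eval w = L * A.eval w := by
    simp only [hAdef, hBdef, eval_mul, eval_C, hevs, hevr]
    rw [hrs]; field_simp
  obtain ⟨K₀, k1, k2, k3, k4, k5, k6, k7, k8, k9, k10⟩ := hK0 β L a b (m1 * m2) A B hL hAw
  let D : Data :=
    { β := β, a := a, b := b, hβ := hβ, him := him, L := L, S := SK φ, hS := c4 hns,
      hβS := hβS, n₀ := m1 * m2, hn₀ := Nat.mul_pos hm1 hm2,
      h₁ := by
        have : ((m1 * m2 : ℕ) : ℂ) * Complex.exp L = (m2 : ℂ) * ((m1 : ℂ) * Complex.exp L) := by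
          push_cast; ring
        rw [this]; exact (SK φ).mul_mem (natCast_mem _ m2) hm1'
      h₂ := by
        have : ((m1 * m2 : ℕ) : ℂ) * Complex.exp (-L) =
            (m1 : ℂ) * ((m2 : ℂ) * Complex.exp (-L)) := by
          push_cast; ring
        rw [this]; exact (SK φ).mul_mem (natCast_mem _ m1) hm2'
      A := A, B := B, hA := hnat _ _ hs, hB := hnat _ _ hr, hAB := hAB, K₀ := K₀, hK := k1,
      hKβ := k2, hKL := k3, hKL' := k4, hKα := k5, hKw := k6, hKw' := k7, hKA := k8,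
      hKA' := k9, hKd := k10 }
  exact hC K φ (SK φ) H w (hA D)

end LogPow
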