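import Pool.Agent.MP_655169_nt.H83.If

/-! The selected factor is balanced. -/

open Polynomial NumberField Finset

namespace LogPow

namespace BalL

theorem low {s C d h k : ℝ} (hs : 1 ≤ s) (hC : 10 ≤ C) (hd : 1 ≤ d) (hh : 0 ≤ h) (hk : 0 < k)
    (h1 : 5 * C * s ≤ k) (h2 : 0.99 * (d * k + h / k) ≤ s * (d * C + (h + d) / C)) :
    C ^ 2 * d ≤ h := by
  by_contra h3
  have h4 : (h + d) / C ≤ 2 * C * d := by
    rw [div_le_iff₀ (by linarith)]
    have : 1 * d ≤ C ^ 2 * d := mul_le_mul_of_nonneg_right (by nlinarith) (by linarith)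
    linarith
  have h5 : 0 ≤ h / k := by positivity
  have h6 := mul_le_mul_of_nonneg_left h4 (show 0 ≤ s by linarith)
  have h7 := mul_le_mul_of_nonneg_left h1 (show 0 ≤ d by linarith)
  have h8 : 0 < C * s * d := by positivity
  linarith

theorem high {s d h k k₁ : ℝ} (hs : 1 ≤ s) (hd : 1 ≤ d) (hk : 0 < k) (hk₁ : 1 ≤ k₁)
    (h1 : 5 * s * k ≤ k₁) (h2 : 0.99 * (d * k + h / k) ≤ s * (d * k₁ + (h + d) / k₁)) :
    h ≤ k₁ ^ 2 * d := by
  by_contra h3
  have h0 : 1 * d ≤ k₁ ^ 2 * d := mul_le_mul_of_nonneg_right (by nlinarith) (by linarith)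
  have h4 : d * k₁ + (h + d) / k₁ ≤ 3 * (h / k₁) := by
    have e : d * k₁ = k₁ ^ 2 * d / k₁ := by field_simp
    rw [e, ← add_div, ← mul_div_assoc]
    exact div_le_div_of_nonneg_right (by linarith) (by linarith)
  have h5 : 5 * s * (h / k₁) ≤ h / k := by
    rw [← mul_div_assoc, div_le_div_iff₀ (by linarith) hk]
    have := mul_le_mul_of_nonneg_left h1 (show 0 ≤ h by linarith)
    linarith
  have h6 := mul_le_mul_of_nonneg_left h4 (show 0 ≤ s by linarith)
  have h7 : 0 < h / k := div_pos (by linarith) hk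
  have h8 : 0 < d * k := by positivity
  linarith

end BalL

theorem balStmt (hc : ClStmt) (hB : ClaimBStmt) : BalStmt := by
  intro K _ φ S H w C₀ C c y₀ hC₀ hC hc0 hA
  obtain ⟨s, hs⟩ : ∃ s, s = Real.sqrt C₀ := ⟨_, rfl⟩
  have hs1 : 1 ≤ s := hs ▸ Real.one_le_sqrt.2 hC₀
  have hs2 : s ^ 2 = C₀ := hs ▸ Real.sq_sqrt (by linarith)
  have ht := (Real.tendsto_sqrt_atTop.comp (Real.tendsto_sqrt_atTop.comp
    Real.tendsto_log_atTop)).eventually_ge_atTop (10 + 5 * C * s + 10 * s / c + 2 * C / c)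
  obtain ⟨y₁, hy₁⟩ := Filter.eventually_atTop.1 (ht.and ((Filter.eventually_ge_atTop (C₀ ^ 2)).and
    (Filter.eventually_ge_atTop (max 1 y₀ ^ 4))))
  refine ⟨y₁, fun y hy Q hQ hW => ?_⟩
  obtain ⟨a1, a2, a3⟩ := hy₁ y hy
  simp only [Function.comp] at a1
  have hy1 : 1 ≤ y := (one_le_pow₀ hC₀).trans a2
  have hl : 0 ≤ Real.log y := Real.log_nonneg hy1
  obtain ⟨k, hk⟩ : ∃ k, k = Real.sqrt (Real.sqrt (Real.log y)) := ⟨_, rfl⟩
  have hk2 : k ^ 2 = Real.sqrt (Real.log y) := hk ▸ Real.sq_sqrt (Real.sqrt_nonneg _)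
  have hk4 : (k ^ 2) ^ 2 = Real.log y := hk2 ▸ Real.sq_sqrt hl
  rw [← hk] at a1 hW
  have p1 : 0 ≤ 5 * C * s := by positivity
  have p2 : 0 ≤ 10 * s / c := by positivity
  have p3 : 0 ≤ 2 * C / c := by positivity
  have b1 : 10 ≤ k := by linarith
  have b2 : 10 * s ≤ k * c := (div_le_iff₀ hc0).1 (by linarith)
  have b3 : 2 * C ≤ k * c := (div_le_iff₀ hc0).1 (by linarith)
  have b4 : C ≤ c / 2 * k ^ 2 := by nlinarith
  have hd : (1 : ℝ) ≤ Q.natDegree := by exact_mod_cast hQ.natDegree_pos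
  have hh := H.nonneg Q hQ.ne_zero
  have hcard : (Q.map φ).roots.card = Q.natDegree := by
    rw [IsAlgClosed.card_roots_eq_natDegree, natDegree_map]
  have hne : (Q.map φ).roots ≠ 0 := fun h0 => by
    rw [h0, Multiset.card_zero] at hcard
    exact hQ.natDegree_pos.ne hcard
  obtain ⟨γ, hγ, hmax⟩ := Multiset.exists_max_image (cl w (y ^ 2)) hne
  obtain ⟨m, hm⟩ : ∃ m, m = cl w (y ^ 2) γ := ⟨_, rfl⟩
  have c1 : W w (y ^ 2) (Q.map φ) ≤ Q.natDegree * m := by
    rw [← hcard, ← nsmul_eq_mul, ← Multiset.card_map (cl w (y ^ 2))]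
    refine Multiset.sum_le_card_nsmul _ _ fun x hx => ?_
    obtain ⟨ρ, hρ, rfl⟩ := Multiset.mem_map.1 hx
    exact hm ▸ hmax ρ hρ
  have c2 : y ≤ m := by
    have h1 : 0 ≤ H.h Q / k := by positivity
    have h2 : (Q.natDegree : ℝ) * y ≤ Q.natDegree * m := by
      have h3 : 0 ≤ y * (H.h Q / k) := by positivity
      have h4 := mul_le_mul_of_nonneg_left b1 (show 0 ≤ y * Q.natDegree by positivity)
      have h5 : 0 ≤ y * Q.natDegree := by positivity
      linarith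
    exact le_of_mul_le_mul_left h2 (by linarith)
  have c3 : m ≤ y ^ 2 := hm ▸ hc.le w γ _
  obtain ⟨z, hz⟩ : ∃ z, z = Real.sqrt (m / C₀) := ⟨_, rfl⟩
  have hz0 : 0 ≤ z := hz ▸ Real.sqrt_nonneg _
  have d1 : C₀ * z ^ 2 = m := by
    rw [hz, Real.sq_sqrt (div_nonneg (by linarith) (by linarith))]
    field_simp
  have d2 : z ^ 2 ≤ y ^ 2 := by nlinarith [sq_nonneg z]
  have d3 : y ≤ z ^ 4 := by
    have h1 : y ^ 2 ≤ C₀ ^ 2 * z ^ 4 :=
      (pow_le_pow_left₀ (by linarith) c2 2).trans_eq (by rw [← d1]; ring)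
    have h2 := mul_le_mul_of_nonneg_right a2 (show 0 ≤ z ^ 4 by positivity)
    exact le_of_mul_le_mul_left (show y * y ≤ y * z ^ 4 by linarith) (by linarith)
  have d4 : max 1 y₀ ≤ z := le_of_pow_le_pow_left₀ (by norm_num) hz0 (a3.trans d3)
  have d5 : 0 < z := lt_of_lt_of_le one_pos ((le_max_left _ _).trans d4)
  have d6 : c / 2 * k ^ 2 ≤ c * Real.sqrt (Real.log z) := by
    have h1 := Real.log_le_log (by linarith) d3
    rw [Real.log_pow, ← hk4] at h1
    have h2 : k ^ 2 / 2 ≤ Real.sqrt (Real.log z) := Real.le_sqrt_of_sq_le (by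
      push_cast at h1
      linarith)
    linarith [mul_le_mul_of_nonneg_left h2 hc0.le]
  have d7 : W w (y ^ 2) (Q.map φ) ≤ C₀ * W w (z ^ 2) (Q.map φ) := by
    rw [W, W, ← Multiset.sum_map_mul_left]
    exact Multiset.sum_map_le_sum_map _ _ fun ρ hρ =>
      hc.scale w ρ _ _ _ (sq_nonneg z) d2 hC₀ (by rw [d1, hm]; exact hmax ρ hρ)
  have d8 : C₀ * z ≤ s * y := by
    refine le_of_pow_le_pow_left₀ (n := 2) (by norm_num) (by positivity) ?_
    rw [mul_pow, mul_pow, hs2, sq C₀, mul_assoc, d1]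
    exact mul_le_mul_of_nonneg_left c3 (by linarith)
  have key : ∀ k', C ≤ k' → k' ≤ c / 2 * k ^ 2 → 0.99 * (Q.natDegree * k + H.h Q / k) ≤
      s * (Q.natDegree * k' + (H.h Q + Q.natDegree) / k') := by
    intro k' h1 h2
    have h3 := hB K φ S H w C₀ C c y₀ hC hA Q γ z k' hQ (mem_roots'.1 hγ).2 d5
      ((le_max_right _ _).trans d4) h1 (h2.trans d6)
      (by rw [d1, hm]; exact hc.dist w γ _ (by linarith))
    have h0 : 0 < k' := by linarith
    have h4 := mul_le_mul_of_nonneg_right d8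
      (show 0 ≤ Q.natDegree * k' + (H.h Q + Q.natDegree) / k' by positivity)
    have h5 := mul_le_mul_of_nonneg_left h3 (show 0 ≤ C₀ by linarith)
    have h6 : 0 ≤ y * (Q.natDegree * k + H.h Q / k) := by positivity
    refine le_of_mul_le_mul_left ?_ (show 0 < y by linarith)
    linarith
  refine ⟨BalL.low hs1 hC hd hh (by linarith) (by linarith) (key C le_rfl b4), ?_⟩
  refine (BalL.high hs1 hd (by linarith) (by linarith) (by nlinarith) (key _ b4 le_rfl)).trans ?_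
  refine mul_le_mul_of_nonneg_right ?_ (by linarith)
  rw [← hk4]
  nlinarith [sq_nonneg (c * k ^ 2)]

end LogPow
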