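import Pool.Agent.MP_655169_nt.H83.If

/-! Claim (B) and the statement that `w` is not a root of an irreducible polynomial. -/

open Polynomial NumberField Finset

namespace LogPow

namespace ClaimBL

lemma arith {y k Λ WQ WD dQ dD hQ hD l : ℝ} (hy : 0 < y) (hk : 0 < k) (hΛ : 0 < Λ)
    (hWQ : 0 ≤ WQ) (hdQ : 0 ≤ dQ) (hdD : 0 ≤ dD) (hhQ : 0 ≤ hQ) (hl : l ≤ 1)
    (h1 : dD * k ≤ Λ) (h2 : hD ≤ Λ * k) (h3 : 71 / 50 * Λ * y ≤ WD)
    (h4 : WD * WQ ≤ y ^ 2 * (dQ * hD + dD * hQ + dD * dQ * l)) :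
    71 / 50 * WQ ≤ y * (dQ * k + (hQ + dQ) / k) := by
  have hd : dD ≤ Λ / k := by rw [le_div_iff₀ hk]; exact h1
  have a1 : dQ * hD ≤ dQ * (Λ * k) := mul_le_mul_of_nonneg_left h2 hdQ
  have a2 : dD * hQ ≤ Λ / k * hQ := mul_le_mul_of_nonneg_right hd hhQ
  have a3 : dD * dQ * l ≤ Λ / k * dQ := by
    have : dD * dQ * l ≤ dD * dQ * 1 := mul_le_mul_of_nonneg_left hl (mul_nonneg hdD hdQ)
    have h' : dD * dQ ≤ Λ / k * dQ := mul_le_mul_of_nonneg_right hd hdQ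
    linarith
  have a4 : dQ * hD + dD * hQ + dD * dQ * l ≤ Λ * (dQ * k + (hQ + dQ) / k) := by
    have : Λ * (dQ * k + (hQ + dQ) / k) = dQ * (Λ * k) + Λ / k * hQ + Λ / k * dQ := by
      field_simp
      ring
    linarith
  have a5 : 71 / 50 * Λ * y * WQ ≤ WD * WQ := mul_le_mul_of_nonneg_right h3 hWQ
  have a6 : y ^ 2 * (dQ * hD + dD * hQ + dD * dQ * l) ≤
      y ^ 2 * (Λ * (dQ * k + (hQ + dQ) / k)) := mul_le_mul_of_nonneg_left a4 (by positivity)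
  have a7 : (Λ * y) * (71 / 50 * WQ) ≤ (Λ * y) * (y * (dQ * k + (hQ + dQ) / k)) := by
    have e1 : (Λ * y) * (71 / 50 * WQ) = 71 / 50 * Λ * y * WQ := by ring
    have e2 : (Λ * y) * (y * (dQ * k + (hQ + dQ) / k)) =
        y ^ 2 * (Λ * (dQ * k + (hQ + dQ) / k)) := by ring
    rw [e1, e2]
    linarith
  exact le_of_mul_le_mul_left a7 (mul_pos hΛ hy)

end ClaimBL

theorem claimB (hc : ClStmt) (hr : ResWStmt) : ClaimBStmt := by
  intro K _ φ S H w C₀ C c y₀ hC hA Q γ y k hQ hγ hy hy₀ hk hkc hd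
  obtain ⟨Δ, Λ, hΛ, hΔ, h1, h2, h3⟩ := hA y k hy₀ hk hkc γ hd
  have hΔ0 : Δ ≠ 0 := by
    rintro rfl
    simp at hΔ
  have hnd : ¬ Q ∣ Δ := by
    rintro ⟨R, rfl⟩
    apply hΔ
    rw [Polynomial.map_mul, eval_mul, hγ, zero_mul]
  have hcop : IsCoprime Δ Q := ((Irreducible.coprime_iff_not_dvd hQ).2 hnd).symm
  have h4 := hr K φ S H w (y ^ 2) Δ Q (by positivity) hΔ0 hQ.ne_zero hcop
  have hl : Real.log 2 ≤ 1 := by
    have := Real.log_le_sub_one_of_pos (show (0 : ℝ) < 2 by norm_num)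
    linarith
  exact ClaimBL.arith hy (by linarith) hΛ (hc.Wnonneg w _ _ (by positivity))
    (Nat.cast_nonneg _) (Nat.cast_nonneg _) (H.nonneg Q hQ.ne_zero) hl h1 h2 h3 h4

theorem notRoot (hc : ClStmt) (hB : ClaimBStmt) : NotRootStmt := by
  intro K _ φ S H w C₀ C c y₀ hC hc0 hA Q hQ hw
  set T : ℝ := (Q.natDegree : ℝ) * C + (H.h Q + (Q.natDegree : ℝ)) / C with hT
  set y : ℝ := max (max y₀ (Real.exp ((C / c) ^ 2))) (|T| + 1) with hydef
  have hy1 : y₀ ≤ y := le_trans (le_max_left _ _) (le_max_left _ _)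
  have hy2 : Real.exp ((C / c) ^ 2) ≤ y := le_trans (le_max_right _ _) (le_max_left _ _)
  have hy3 : |T| + 1 ≤ y := le_max_right _ _
  have hy : 0 < y := lt_of_lt_of_le (Real.exp_pos _) hy2
  have hlog : (C / c) ^ 2 ≤ Real.log y := by
    rw [Real.le_log_iff_exp_le hy]; exact hy2
  have hsq : C / c ≤ Real.sqrt (Real.log y) := Real.le_sqrt_of_sq_le hlog
  have hkc : C ≤ c * Real.sqrt (Real.log y) := by
    rw [div_le_iff₀ hc0] at hsq
    linarith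
  have hb := hB K φ S H w C₀ C c y₀ hC hA Q w y C hQ hw hy hy1 le_rfl hkc
    (by rw [sub_self, norm_zero]; exact (Real.exp_pos _).le)
  have hQ0 : Q.map φ ≠ 0 := by
    rw [Ne, Polynomial.map_eq_zero_iff φ.injective]
    exact hQ.ne_zero
  have hroot := hc.root w (y ^ 2) (Q.map φ) (by positivity) hQ0 hw
  have hTy : T < y := by
    have := le_abs_self T
    linarith
  have : y * T < y * y := mul_lt_mul_of_pos_left hTy hy
  have h2 : 0 < y ^ 2 := by positivity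
  nlinarith

end LogPow
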