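import Pool.Agent.MP_655169_nt.H83.If

open Polynomial NumberField Finset

namespace LogPow

namespace FinL

lemma add_pow' {R : Type} [CommRing R] [IsDomain R] (f : R → ℝ)
    (hf : ∀ P Q : R, P ≠ 0 → Q ≠ 0 → f (P * Q) = f P + f Q) {P Q : R} (hP : P ≠ 0) (hQ : Q ≠ 0)
    (e : ℕ) : f (Q ^ e * P) = e * f Q + f P := by
  induction e with
  | zero => simp
  | succ e ih =>
    rw [pow_succ', mul_assoc, hf _ _ hQ (mul_ne_zero (pow_ne_zero _ hQ) hP), ih]
    push_cast
    ring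

lemma num (d k a e hP Λ t WP s : ℝ) (hd : 1 ≤ d) (hk : 10 ≤ k) (ha : 0 ≤ a) (he : 0 ≤ e)
    (hΛ : 0 < Λ) (ht : 0 < t) (hs1 : 1.4142 ≤ s) (hs2 : s ≤ 1.4143)
    (h1 : (e * d + a) * k ≤ Λ) (h2 : e * (k ^ 2 * d) + hP ≤ Λ * k)
    (h3 : 71 / 50 * Λ * t ≤ e * (s * t * (d * k)) + WP)
    (h4 : WP * (s * t * (d * k)) ≤ t ^ 2 * (d * hP + a * (k ^ 2 * d) + a * d * Real.log 2)) :
    False := by
  obtain ⟨g, hg⟩ : ∃ g, g = d * k := ⟨_, rfl⟩
  obtain ⟨R, hR⟩ : ∃ R, R = Λ - e * g := ⟨_, rfl⟩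
  have hg0 : 0 < g := by rw [hg]; positivity
  have a1 : a * k ≤ R := by rw [hR, hg]; linarith
  have hR0 : 0 ≤ R := le_trans (by positivity) a1
  have a2 : d * hP ≤ g * R := by
    have : hP ≤ R * k := by rw [hR, hg]; linarith
    calc d * hP ≤ d * (R * k) := by gcongr
      _ = g * R := by rw [hg]; ring
  have a3 : a * (k ^ 2 * d) ≤ g * R := by
    calc a * (k ^ 2 * d) = g * (a * k) := by rw [hg]; ring
      _ ≤ g * R := by gcongr
  have a4 : a * d * Real.log 2 ≤ 0.007 * (g * R) := by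
    have b1 : Real.log 2 ≤ 0.7 := by linarith [Real.log_two_lt_d9]
    have b2 : a * d * Real.log 2 ≤ a * d * 0.7 := by gcongr
    have b3 : a * (100 * d) ≤ a * (k ^ 2 * d) := by
      have : (100 : ℝ) ≤ k ^ 2 := by nlinarith
      gcongr
    linarith
  have a5 : WP * s ≤ 2.007 * (t * R) := by
    refine le_of_mul_le_mul_right (a := t * g) ?_ (by positivity)
    calc WP * s * (t * g) = WP * (s * t * (d * k)) := by rw [hg]; ring
      _ ≤ _ := h4
      _ ≤ t ^ 2 * (g * R + g * R + 0.007 * (g * R)) := by gcongr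
      _ = _ := by ring
  have htR : 0 ≤ t * R := by positivity
  have a6 : WP ≤ 1.4192 * (t * R) := by
    by_contra hc
    push Not at hc
    nlinarith
  have a7 : e * (s * t * (d * k)) ≤ 1.4192 * (t * (e * g)) := by
    have : 0 ≤ t * (e * g) := by positivity
    calc e * (s * t * (d * k)) = s * (t * (e * g)) := by rw [hg]; ring
      _ ≤ _ := by gcongr; linarith
  have a8 : t * R + t * (e * g) = Λ * t := by rw [hR]; ring
  have a9 : 0 < Λ * t := by positivity
  linarith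

end FinL

theorem finStmt (hc : ClStmt) (hr : ResWStmt) : FinStmt := by
  intro K _ φ S H w C₀ C c y₀ hC hc0 hA Q y hQ hQw hy hy₀ h1 h2 h3
  have hd : (1 : ℝ) ≤ Q.natDegree := by exact_mod_cast hQ.natDegree_pos
  have hh : 0 ≤ H.h Q := H.nonneg Q hQ.ne_zero
  obtain ⟨k, hk⟩ : ∃ k, k = Real.sqrt (H.h Q / Q.natDegree) := ⟨_, rfl⟩
  have hk0 : 0 ≤ k := hk ▸ Real.sqrt_nonneg _
  have hk2 : H.h Q = k ^ 2 * Q.natDegree := by
    rw [hk, Real.sq_sqrt (by positivity)]
    field_simp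
  have hCk : C ≤ k := by
    rw [hk2] at h1
    exact (pow_le_pow_iff_left₀ (by linarith) hk0 two_ne_zero).1
      (le_of_mul_le_mul_right h1 (by linarith))
  have hg : Real.sqrt ((Q.natDegree : ℝ) * H.h Q) = Q.natDegree * k := by
    rw [hk2, show (Q.natDegree : ℝ) * (k ^ 2 * Q.natDegree) = (Q.natDegree * k) ^ 2 by ring,
      Real.sqrt_sq (by positivity)]
  rw [hg] at h3
  have hg1 : (1 : ℝ) ≤ Q.natDegree * k := by nlinarith
  have hs1 : (1.4142 : ℝ) ≤ Real.sqrt 2 := Real.le_sqrt_of_sq_le (by norm_num)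
  have hs2 : Real.sqrt 2 ≤ 1.4143 := Real.sqrt_le_iff.2 ⟨by norm_num, by norm_num⟩
  obtain ⟨b, hb⟩ := hc.bdd w _ hQw
  have hcont : Continuous fun t : ℝ =>
      W w (t ^ 2) (Q.map φ) - Real.sqrt 2 * t * (Q.natDegree * k) :=
    ((hc.cont w _).comp (continuous_pow 2)).sub (by fun_prop)
  obtain ⟨t, ⟨ht, -⟩, ht0⟩ := intermediate_value_Icc' (a := y) (b := y + |b|)
    (by linarith [abs_nonneg b]) hcont.continuousOn (show (0 : ℝ) ∈ _ from ⟨by
      have e1 := hb ((y + |b|) ^ 2)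
      have e2 : 1 * (y + |b|) * 1 ≤ Real.sqrt 2 * (y + |b|) * (Q.natDegree * k) := by
        gcongr
        linarith
      linarith [le_abs_self b], by linarith⟩)
  have hW : W w (t ^ 2) (Q.map φ) = Real.sqrt 2 * t * (Q.natDegree * k) := sub_eq_zero.1 ht0
  have hkc : k ≤ c * Real.sqrt (Real.log t) := by
    have e1 : Real.log y ≤ Real.log t := Real.log_le_log (by linarith) ht
    have e0 : 0 ≤ Real.log y := Real.log_nonneg hy
    rw [hk2] at h2
    have e2 := le_of_mul_le_mul_right h2 (by linarith)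
    refine (pow_le_pow_iff_left₀ hk0 (by positivity) two_ne_zero).1 (e2.trans ?_)
    rw [mul_pow, Real.sq_sqrt (by linarith)]
    gcongr
  obtain ⟨Δ, Λ, hΛ, d1, d2, d3, d4⟩ := hA t k (hy₀.trans ht) hCk hkc w
    (by rw [sub_self, norm_zero]; positivity)
  have hΔ : Δ ≠ 0 := by
    rintro rfl
    simp at d1
  obtain ⟨e, P, hnd, rfl⟩ := WfDvdMonoid.max_power_factor hΔ hQ
  have hP : P ≠ 0 := right_ne_zero_of_mul hΔ
  have hm : ∀ A : K[X], A ≠ 0 → A.map φ ≠ 0 := fun A hA' => Polynomial.map_ne_zero hA'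
  rw [natDegree_mul (pow_ne_zero _ hQ.ne_zero) hP, natDegree_pow] at d2
  rw [FinL.add_pow' H.h H.mul hP hQ.ne_zero, hk2] at d3
  rw [Polynomial.map_mul, Polynomial.map_pow,
    FinL.add_pow' _ (hc.mul w _) (hm P hP) (hm Q hQ.ne_zero), hW] at d4
  have d5 := hr K φ S H w (t ^ 2) P Q (by have : 0 < t := by linarith
                                          positivity) hP hQ.ne_zero
    (hQ.coprime_iff_not_dvd.2 hnd).symm
  rw [hW, hk2] at d5
  push_cast at d2
  exact FinL.num _ k P.natDegree e _ Λ t _ _ hd (by linarith) (by positivity) (by positivity) hΛ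
    (by linarith) hs1 hs2 d2 d3 d4 d5

end LogPow
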