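import Pool.Agent.MP_655169_nt.H83.If

open Polynomial NumberField Finset

namespace LogPow

namespace SelectL

theorem h_unit {K : Type} [Field K] {φ : K →+* ℂ} {S : Subring ℂ} (H : HtData K φ S) {u : K[X]}
    (hu : IsUnit u) : H.h u = 0 := by
  obtain ⟨v, hv⟩ := hu.exists_right_inv
  have h1 := H.mul 1 1 one_ne_zero one_ne_zero
  rw [mul_one] at h1
  have u0 : u ≠ 0 := hu.ne_zero
  have v0 : v ≠ 0 := by
    rintro rfl
    simp at hv
  have h2 := H.mul u v u0 v0
  rw [hv] at h2
  have := H.nonneg u u0
  have := H.nonneg v v0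
  linarith

end SelectL

theorem selectStmt (hc : ClStmt) : SelectStmt := by
  intro K _ φ S H w Y s t P
  induction P using WfDvdMonoid.induction_on_irreducible with
  | zero => exact fun h => absurd rfl h
  | unit u hu =>
    intro _ h
    obtain ⟨c, -, rfl⟩ := Polynomial.isUnit_iff.1 hu
    rw [SelectL.h_unit H hu, map_C, hc.const, natDegree_C] at h
    simp at h
  | mul a i ha hi ih =>
    intro _ h
    by_cases h1 : s * (i.natDegree : ℝ) + t * H.h i < W w Y (i.map φ)
    · exact ⟨i, hi, h1⟩
    refine ih ha ?_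
    rw [natDegree_mul hi.ne_zero ha, H.mul _ _ hi.ne_zero ha, Polynomial.map_mul,
      hc.mul _ _ _ _ (map_ne_zero hi.ne_zero) (map_ne_zero ha)] at h
    push_cast at h
    linarith [not_lt.1 h1]

end LogPow
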