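import Mathlib

/-! Definitions for `log α ∉ K(α^β)` (K imaginary quadratic).  Plan: /team-store/655169_h83_PROOF.md -/

open Polynomial NumberField

namespace LogPow

/-- Truncated logarithmic closeness of `ρ` to `w`; it lies in `[0, Y]` for `0 ≤ Y`. -/
noncomputable def cl (w : ℂ) (Y : ℝ) (ρ : ℂ) : ℝ :=
  - Real.log (max (min 1 ‖ρ - w‖) (Real.exp (-Y)))

/-- Sum of `cl w Y` over the roots of `P`. -/
noncomputable def W (w : ℂ) (Y : ℝ) (P : ℂ[X]) : ℝ := (P.roots.map (cl w Y)).sum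

/-- All coefficients lie in `S`. -/
def InS (S : Subring ℂ) (P : ℂ[X]) : Prop := ∀ i, P.coeff i ∈ S

/-- What the interpolation determinants supply. -/
def Aux (S : Subring ℂ) (w : ℂ) : Prop :=
  ∃ C₀ C c y₀ : ℝ, 1 ≤ C₀ ∧ 10 ≤ C ∧ 0 < c ∧ ∀ y k : ℝ, y₀ ≤ y → C ≤ k →
    k ≤ c * Real.sqrt (Real.log y) → ∀ γ : ℂ, ‖γ - w‖ ≤ Real.exp (-(C₀ * y ^ 2)) →
      ∃ (Δ : ℂ[X]) (Λ : ℝ), 0 < Λ ∧ InS S Δ ∧ Δ.eval γ ≠ 0 ∧ (Δ.natDegree : ℝ) * k ≤ Λ ∧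
        Δ.logMahlerMeasure ≤ Λ * k ∧ 71 / 50 * Λ * y ≤ W w (y ^ 2) Δ

/-- An additive height on `K[X]` with the resultant inequality. -/
structure HtData (K : Type) [Field K] (φ : K →+* ℂ) (S : Subring ℂ) where
  h : K[X] → ℝ
  mul : ∀ P Q : K[X], P ≠ 0 → Q ≠ 0 → h (P * Q) = h P + h Q
  nonneg : ∀ P : K[X], P ≠ 0 → 0 ≤ h P
  le_mahler : ∀ P : K[X], P ≠ 0 → InS S (P.map φ) → h P ≤ (P.map φ).logMahlerMeasure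
  res : ∀ P Q : K[X], P ≠ 0 → Q ≠ 0 → IsCoprime P Q →
    (((P.map φ).roots ×ˢ (Q.map φ).roots).map fun r : ℂ × ℂ =>
        Real.posLog ‖r.1‖ + Real.posLog ‖r.2‖ - Real.log ‖r.1 - r.2‖).sum
      ≤ (Q.natDegree : ℝ) * h P + (P.natDegree : ℝ) * h Q
  lift : ∀ x ∈ S, ∃ y : K, φ y = x

/-- `Aux` over `K`, with the height `h` and explicit constants. -/
def AuxK {K : Type} [Field K] (φ : K →+* ℂ) (h : K[X] → ℝ) (w : ℂ) (C₀ C c y₀ : ℝ) : Prop :=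
  ∀ y k : ℝ, y₀ ≤ y → C ≤ k → k ≤ c * Real.sqrt (Real.log y) →
    ∀ γ : ℂ, ‖γ - w‖ ≤ Real.exp (-(C₀ * y ^ 2)) →
      ∃ (Δ : K[X]) (Λ : ℝ), 0 < Λ ∧ (Δ.map φ).eval γ ≠ 0 ∧ (Δ.natDegree : ℝ) * k ≤ Λ ∧
        h Δ ≤ Λ * k ∧ 71 / 50 * Λ * y ≤ W w (y ^ 2) (Δ.map φ)

/-- The embedding of the ring of integers. -/
noncomputable def psi {K : Type} [Field K] (φ : K →+* ℂ) : 𝓞 K →+* ℂ :=
  φ.comp (algebraMap (𝓞 K) K)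

/-- The image of the ring of integers. -/
noncomputable def SK {K : Type} [Field K] (φ : K →+* ℂ) : Subring ℂ := (psi φ).range

/-- Height of an integral polynomial: `log M(P) - (1/2) log N(content ideal)`. -/
noncomputable def hO {K : Type} [Field K] [NumberField K] (φ : K →+* ℂ) (P : (𝓞 K)[X]) : ℝ :=
  (P.map (psi φ)).logMahlerMeasure - Real.log (Ideal.absNorm P.contentIdeal) / 2

/-- `f' - ω f`. -/
noncomputable def Dop (ω : ℂ) (f : ℂ → ℂ) : ℂ → ℂ := fun z => deriv f z - ω * f z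

/-- Apply `Dop ω` for `ω` running through a list (head first). -/
noncomputable def Dl : List ℂ → (ℂ → ℂ) → (ℂ → ℂ)
  | [], f => f
  | ω :: l, f => Dl l (Dop ω f)

/-- Exponential polynomial. -/
noncomputable def ep {ι : Type} (s : Finset ι) (ω : ι → ℂ) (p : ι → ℂ[X]) : ℂ → ℂ :=
  fun z => ∑ i ∈ s, (p i).eval z * Complex.exp (ω i * z)

/-- The data of a hypothetical relation `L = B(w)/A(w)`, with one constant `K₀` bounding everything. -/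
structure Data where
  β : ℂ
  a : ℤ
  b : ℤ
  hβ : β ^ 2 = a * β + b
  him : β.im ≠ 0
  L : ℂ
  S : Subring ℂ
  hS : ∀ x ∈ S, x ≠ 0 → 1 ≤ ‖x‖
  hβS : β ∈ S
  n₀ : ℕ
  hn₀ : 1 ≤ n₀
  h₁ : (n₀ : ℂ) * Complex.exp L ∈ S
  h₂ : (n₀ : ℂ) * Complex.exp (-L) ∈ S
  A : ℂ[X]
  B : ℂ[X]
  hA : InS S A
  hB : InS S B
  hAB : B.eval (Complex.exp (β * L)) = L * A.eval (Complex.exp (β * L))
  K₀ : ℝ
  hK : 2 ≤ K₀
  hKβ : 1 + |(a : ℝ)| + ‖β‖ ≤ K₀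
  hKL : ‖L‖ ≤ K₀
  hKL' : 1 ≤ K₀ * ‖L‖
  hKα : ((n₀ : ℝ) * Real.exp ‖L‖) ^ (1 + a.natAbs + b.natAbs) ≤ K₀
  hKw : ‖Complex.exp (β * L)‖ + 1 ≤ K₀
  hKw' : 1 ≤ K₀ * ‖Complex.exp (β * L)‖
  hKA : ∀ ζ : ℂ, ‖ζ‖ ≤ ‖Complex.exp (β * L)‖ + 1 → ‖A.eval ζ‖ ≤ K₀ ∧ ‖B.eval ζ‖ ≤ K₀
  hKA' : 1 ≤ K₀ * ‖A.eval (Complex.exp (β * L))‖
  hKd : (A.natDegree : ℝ) ≤ K₀ ∧ (B.natDegree : ℝ) ≤ K₀

/-- One-dimensional multiplicity profile `⌊q (1 - x²/M²)⌋₊`. -/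
def prof (M q : ℕ) (x : ℤ) : ℕ := q * (M ^ 2 - x.natAbs ^ 2) / M ^ 2

noncomputable def box (M : ℕ) : Finset (ℤ × ℤ) := Finset.Icc (-(M : ℤ)) M ×ˢ Finset.Icc (-(M : ℤ)) M

def mult (M q : ℕ) (x : ℤ × ℤ) : ℕ := prof M q x.1 * prof M q x.2

/-- Index set: lattice point with a multiplicity index. -/
noncomputable def idx (M q : ℕ) : Finset ((ℤ × ℤ) × ℕ) :=
  (box M ×ˢ Finset.range (q ^ 2)).filter fun p => p.2 < mult M q p.1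

def tri (n : ℤ) : ℕ := (n * (n + 1) / 2).toNat

def uu (x : ℤ × ℤ) : ℕ := x.1.natAbs ^ 2 + x.1.natAbs + x.2.natAbs ^ 2 + x.2.natAbs

noncomputable def NN (M q : ℕ) : ℕ := (idx M q).card
noncomputable def UU (M q : ℕ) : ℕ := ∑ p ∈ idx M q, uu p.1
noncomputable def VV (M q : ℕ) : ℕ := ∑ p ∈ idx M q, p.2

namespace Data

variable (D : Data)

noncomputable def w : ℂ := Complex.exp (D.β * D.L)
noncomputable def lam (x : ℤ × ℤ) : ℂ := (x.1 : ℂ) + (x.2 : ℂ) * D.β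
noncomputable def mu (y : ℤ × ℤ) : ℂ := ((y.2 - D.a * y.1 : ℤ) : ℂ) + (y.1 : ℂ) * D.β
/-- `lam x * mu y = sE x y + (x ⬝ y) β`. -/
def sE (x y : ℤ × ℤ) : ℤ := x.1 * (y.2 - D.a * y.1) + D.b * x.2 * y.1

/-- The function of column `c = (x, τ)`. -/
noncomputable def fn (c : (ℤ × ℤ) × ℕ) : ℂ → ℂ :=
  fun z => z ^ c.2 * Complex.exp (D.lam c.1 * D.L * z)

/-- The entry polynomial in row `r = (y, σ)` and column `c = (x, τ)`. -/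
noncomputable def entry (M : ℕ) (r c : (ℤ × ℤ) × ℕ) : ℂ[X] :=
  C ((D.n₀ : ℂ) ^ ((1 + D.a.natAbs + D.b.natAbs) * M ^ 2) * Complex.exp D.L ^ (D.sE c.1 r.1)) *
    X ^ (tri (c.1.1 + r.1.1) + tri (c.1.2 + r.1.2)) *
    ∑ k ∈ Finset.range (r.2 + 1),
      C ((r.2.choose k : ℂ) * (c.2.descFactorial k : ℂ) * D.mu r.1 ^ (c.2 - k) *
          D.lam c.1 ^ (r.2 - k)) * D.B ^ (r.2 - k) * D.A ^ k

noncomputable def rowF (M : ℕ) (r : (ℤ × ℤ) × ℕ) : ℂ :=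
  (D.n₀ : ℂ) ^ ((1 + D.a.natAbs + D.b.natAbs) * M ^ 2) * D.w ^ (tri r.1.1 + tri r.1.2) *
    D.A.eval D.w ^ r.2

noncomputable def colF (c : (ℤ × ℤ) × ℕ) : ℂ := D.w ^ (tri c.1.1 + tri c.1.2)

/-- The square minor on the rows `ι`. -/
noncomputable def minor (M q q' : ℕ) (ι : idx M q → idx M q') : ℂ[X] :=
  (Matrix.of fun i j : idx M q => D.entry M (ι i).1 j.1).det

/-- `log (2 K₀² M)`. -/
noncomputable def l0 (M : ℕ) : ℝ := Real.log (2 * D.K₀ ^ 2 * M)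

end Data

/-- The relations between the real parameters `y, k`, `l = (log y)/2` and the integers `M, q, q'`. -/
structure Rel (K₀ y k l M q q' : ℝ) : Prop where
  hK : 2 ≤ K₀
  hy : 1 ≤ y
  hk : 10 ≤ k
  hM1 : 7 * k * M ^ 2 ≤ 4 * y
  hM2 : 0.9998 * (4 * y) ≤ 7 * k * M ^ 2
  hq1 : 7 * l * q ^ 2 ≤ 5 * y * k
  hq2 : 0.9998 * (5 * y * k) ≤ 7 * l * q ^ 2
  hq3 : q * (1 + 1 / 2000) + 3 ≤ q'
  hq4 : q' ≤ 1.001 * q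
  hq5 : q' ≤ M
  hlog1 : Real.log (2 * K₀ ^ 2 * M) ≤ 1.0001 * l
  hlog2 : 0.999 * l ≤ Real.log q
  hkC : 2000 * Real.log K₀ ≤ k ^ 2
  hkc : K₀ * k ^ 2 ≤ l / 1000
  hl : 100000 * K₀ ^ 3 ≤ l
  hlq : l ≤ q
  hG : 2 * K₀ ^ 3 * (1 + Real.exp 4000) ≤ q ^ 2

/-- The bounds of `prof_sums` on `N, U, V`. -/
def Bd (M q N U V : ℝ) : Prop :=
  (4 / 3 * M * (q - 3)) ^ 2 ≤ N ∧ N ≤ 16 / 9 * M ^ 2 * q ^ 2 ∧
    U ≤ 32 / 45 * q ^ 2 * M ^ 4 + 16 / 3 * q ^ 2 * M ^ 3 ∧ V ≤ 128 / 225 * q ^ 4 * M ^ 2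

end LogPow
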