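import Pool.Agent.MP_655169_nt.H83.If

open Polynomial NumberField Finset

namespace LogPow

namespace NormL

theorem normSq_of {K : Type} [Field K] [NumberField K] (φ : K →ₐ[ℚ] ℂ)
    (h2 : Module.finrank ℚ K ≤ 2) (x₀ : K) (hx : (φ x₀).im ≠ 0) : NormSq φ.toRingHom := by
  classical
  intro x
  let ψ : K →ₐ[ℚ] ℂ := (starRingEnd ℂ).toRatAlgHom.comp φ
  have hne : φ ≠ ψ := fun h => hx (by
    have h1 : φ x₀ = (starRingEnd ℂ) (φ x₀) := DFunLike.congr_fun h x₀
    exact Complex.conj_eq_iff_im.1 h1.symm)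
  have hu : (univ : Finset (K →ₐ[ℚ] ℂ)) = {φ, ψ} := by
    refine (eq_of_subset_of_card_le (subset_univ _) ?_).symm
    rw [card_pair hne, card_univ, AlgHom.card]
    exact h2
  have h3 := Algebra.norm_eq_prod_embeddings ℚ ℂ (x : K)
  rw [hu, prod_pair hne, ← Algebra.coe_norm_int] at h3
  have h4 : ((Algebra.norm ℤ x : ℤ) : ℂ) = φ x * (starRingEnd ℂ) (φ x) := by
    rw [← map_intCast (algebraMap ℚ ℂ)]
    exact h3
  have h5 := congrArg norm h4
  rw [norm_mul, Complex.norm_conj, Complex.norm_intCast] at h5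
  rw [Ideal.absNorm_span_singleton, Nat.cast_natAbs, Int.cast_abs, h5, sq]
  rfl

end NormL

theorem normStmt : NormStmt := by
  intro β a b h him
  have hm : (X ^ 2 - C (a : ℚ) * X - C (b : ℚ) : ℚ[X]).Monic := by monicity!
  have hd : (X ^ 2 - C (a : ℚ) * X - C (b : ℚ) : ℚ[X]).natDegree = 2 := by compute_degree!
  have he : aeval β (X ^ 2 - C (a : ℚ) * X - C (b : ℚ) : ℚ[X]) = 0 := by
    simp [h]
  have hi : IsIntegral ℚ β := ⟨_, hm, he⟩
  have := IntermediateField.adjoin.finiteDimensional hi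
  have hN : NumberField (IntermediateField.adjoin ℚ {β}) := NumberField.mk
  refine ⟨hN, NormL.normSq_of _ ?_ (IntermediateField.AdjoinSimple.gen ℚ β) him⟩
  rw [IntermediateField.adjoin.finrank hi, ← hd]
  exact natDegree_le_natDegree (minpoly.min ℚ β hm he)

end LogPow
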