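import Pool.Agent.MP_655169_nt.H83.Asm
import Pool.Agent.MP_655169_nt.H83.Bal
import Pool.Agent.MP_655169_nt.H83.Cl
import Pool.Agent.MP_655169_nt.H83.ClaimB
import Pool.Agent.MP_655169_nt.H83.Clear
import Pool.Agent.MP_655169_nt.H83.ContentMul
import Pool.Agent.MP_655169_nt.H83.Det
import Pool.Agent.MP_655169_nt.H83.DlZero
import Pool.Agent.MP_655169_nt.H83.EntBd
import Pool.Agent.MP_655169_nt.H83.EpCoeff
import Pool.Agent.MP_655169_nt.H83.EpGrow
import Pool.Agent.MP_655169_nt.H83.Eval
import Pool.Agent.MP_655169_nt.H83.Fin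
import Pool.Agent.MP_655169_nt.H83.Grow
import Pool.Agent.MP_655169_nt.H83.HOBasic
import Pool.Agent.MP_655169_nt.H83.HORes
import Pool.Agent.MP_655169_nt.H83.Ht
import Pool.Agent.MP_655169_nt.H83.HtMinor
import Pool.Agent.MP_655169_nt.H83.IntDeg
import Pool.Agent.MP_655169_nt.H83.Jensen
import Pool.Agent.MP_655169_nt.H83.Lat
import Pool.Agent.MP_655169_nt.H83.Minor
import Pool.Agent.MP_655169_nt.H83.Newton
import Pool.Agent.MP_655169_nt.H83.Norm
import Pool.Agent.MP_655169_nt.H83.Num0
import Pool.Agent.MP_655169_nt.H83.Num1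
import Pool.Agent.MP_655169_nt.H83.Num2
import Pool.Agent.MP_655169_nt.H83.Num3
import Pool.Agent.MP_655169_nt.H83.Num4
import Pool.Agent.MP_655169_nt.H83.Prof
import Pool.Agent.MP_655169_nt.H83.QZ
import Pool.Agent.MP_655169_nt.H83.Rank
import Pool.Agent.MP_655169_nt.H83.ResMem
import Pool.Agent.MP_655169_nt.H83.ResW
import Pool.Agent.MP_655169_nt.H83.Select
import Pool.Agent.MP_655169_nt.H83.Small
import Pool.Agent.MP_655169_nt.H83.SumMin
import Pool.Agent.MP_655169_nt.H83.Taylor

/-! All lemmas put together. -/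

namespace LogPow

theorem critAll : CritStmt :=
  critStmt (notRoot clStmt (claimB clStmt (resW clStmt))) (selectStmt clStmt)
    (balStmt clStmt (claimB clStmt (resW clStmt))) (finStmt clStmt (resW clStmt))

theorem qzAll : QZStmt := qzStmt (epGrow dlZero growStmt) (epCoeff dlZero) newtonStmt

theorem auxAll : AuxStmt :=
  auxStmt (profStmt latStmt) (intStmt latStmt) (degStmt latStmt)
    (htMinor latStmt (entBd latStmt) mahlerStmt)
    (smallStmt latStmt (evalStmt latStmt) (entLip latStmt (entBd latStmt)) detStmt sumMin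
      taylorStmt)
    (rankStmt latStmt (evalStmt latStmt) (entLip latStmt (entBd latStmt)) qzAll)
    minorStmt (jensenStmt mahlerStmt) num0 num1 num2 num3 num4

theorem htAll : HtStmt := htStmt (hOBasic contentMul) (hORes resMem)

theorem main (β : ℂ) (a b : ℤ) (hβ : β ^ 2 = a * β + b) (him : β.im ≠ 0) (L : ℂ)
    (hL : L ≠ 0) (hα : Complex.exp L ∈ IntermediateField.adjoin ℚ {β}) :
    L ∉ IntermediateField.adjoin ℚ {β, Complex.exp (β * L)} :=
  mainOf critAll auxAll htAll normStmt clearStmt k0Stmt β a b hβ him L hL hα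

end LogPow
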